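import Pool.Agent.MP_c853c5_nt.DV.Defs

set_option autoImplicit false

namespace Pool.Agent.MP_c853c5_nt.DV

open Finset Filter Real MeasureTheory

theorem sum_CovV {a : ℝ} (ha : 1 ≤ a) : 1 / 2 ≤ ∑ n ∈ Icc ⌈a⌉₊ ⌊4 * a⌋₊, (1 / n : ℝ) := by
  have h1 := Nat.ceil_lt_add_one (by linarith : 0 ≤ a)
  have h2 := Nat.lt_floor_add_one (4 * a)
  have h3 : ⌈a⌉₊ ≤ ⌊4 * a⌋₊ + 1 := by
    exact_mod_cast (show (⌈a⌉₊ : ℝ) ≤ ⌊4 * a⌋₊ + 1 by linarith)
  have h4 := card_nsmul_le_sum (Icc ⌈a⌉₊ ⌊4 * a⌋₊) (fun n : ℕ => (1 / n : ℝ)) (1 / (4 * a))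
    fun n hn => by
      have h5 := Nat.ceil_le.1 (mem_Icc.1 hn).1
      exact one_div_le_one_div_of_le (by linarith)
        ((Nat.le_floor_iff (by linarith)).1 (mem_Icc.1 hn).2)
  rw [Nat.card_Icc, nsmul_eq_mul, Nat.cast_sub h3] at h4
  refine le_trans ?_ h4
  rw [mul_one_div, le_div_iff₀ (by linarith)]
  push_cast
  linarith

theorem cov_stmt : CovStmt := by
  intro f x p q N N' hf h0 hx hpq hN h1 h2
  have hw : Real.log (x / 2) ≤ Real.log (2 * x) := Real.log_le_log (by positivity) (by linarith)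
  have hi : ∀ (n : ℕ) (s : Set ℝ), MeasurableSet s →
      Integrable (fun v => s.indicator f v / n) (volume.restrict (Set.Icc p q)) :=
    fun n s hs => (hf.integrableOn_Icc.integrable.indicator hs).div_const _
  have key : ∀ n ∈ Icc N N', ∫ v in Set.Icc p q, (Set.Icc (Real.log (x / 2) - Real.log n)
      (Real.log (2 * x) - Real.log n)).indicator f v / n ≤
      ∫ w in (Real.log (x / 2))..(Real.log (2 * x)), f (w - Real.log n) / n := fun n _ => by
    rw [intervalIntegral.integral_div, integral_div, intervalIntegral.integral_comp_sub_right,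
      intervalIntegral.integral_of_le (by linarith), ← integral_Icc_eq_integral_Ioc,
      setIntegral_indicator measurableSet_Icc]
    refine div_le_div_of_nonneg_right ?_ (Nat.cast_nonneg n)
    exact setIntegral_mono_set hf.integrableOn_Icc (Eventually.of_forall h0)
      Set.inter_subset_right.eventuallyLE
  rw [intervalIntegral.integral_finsetSum (f := fun (n : ℕ) w => f (w - Real.log n) / n) fun n _ =>
    ((hf.comp (continuous_sub_right _)).div_const _).intervalIntegrable _ _]
  refine le_trans ?_ (mul_le_mul_of_nonneg_left (sum_le_sum key) zero_le_two)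
  rw [← integral_finsetSum _ fun n _ => hi n _ measurableSet_Icc, ← integral_const_mul,
    intervalIntegral.integral_of_le hpq, ← integral_Icc_eq_integral_Ioc]
  refine setIntegral_mono_on hf.integrableOn_Icc
    ((integrable_finsetSum _ fun n _ => hi n _ measurableSet_Icc).const_mul 2) measurableSet_Icc
    fun v hv => ?_
  have hv0 := Real.exp_pos v
  have hN' : (1 : ℝ) ≤ N := by exact_mod_cast hN
  obtain ⟨a, ha⟩ : ∃ a, a = x / 2 / Real.exp v := ⟨_, rfl⟩
  have ea : a * Real.exp v = x / 2 := by rw [ha, div_mul_cancel₀ _ hv0.ne']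
  have a1 : (N : ℝ) ≤ a := by
    rw [ha, le_div_iff₀ hv0]
    exact (mul_le_mul_of_nonneg_left (Real.exp_le_exp.2 hv.2) (Nat.cast_nonneg N)).trans h1
  have a2 : 4 * a ≤ N' := by
    refine le_of_mul_le_mul_right ?_ hv0
    have := mul_le_mul_of_nonneg_left (Real.exp_le_exp.2 hv.1) (Nat.cast_nonneg (α := ℝ) N')
    linarith
  have a3 : Icc ⌈a⌉₊ ⌊4 * a⌋₊ ⊆ Icc N N' :=
    Icc_subset_Icc (by exact_mod_cast a1.trans (Nat.le_ceil a)) (Nat.floor_le_of_le a2)
  refine le_trans ?_ (mul_le_mul_of_nonneg_left (sum_le_sum_of_subset_of_nonneg a3 fun n _ _ =>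
    div_nonneg (Set.indicator_nonneg (fun v _ => h0 v) v) (Nat.cast_nonneg n)) zero_le_two)
  rw [sum_congr rfl (g := fun n : ℕ => f v * (1 / n : ℝ)) fun n hn => ?_, ← mul_sum]
  · have := mul_le_mul_of_nonneg_left (sum_CovV (hN'.trans a1)) (h0 v)
    linarith
  · have b1 := Nat.ceil_le.1 (mem_Icc.1 hn).1
    have b2 := (Nat.le_floor_iff (by linarith)).1 (mem_Icc.1 hn).2
    have b3 : (0 : ℝ) < n := by linarith
    rw [Set.indicator_of_mem, mul_one_div]
    constructor
    · rw [← Real.log_div (by positivity) b3.ne', Real.log_le_iff_le_exp (by positivity),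
        div_le_iff₀ b3]
      nlinarith
    · rw [← Real.log_div (by positivity) b3.ne', Real.le_log_iff_exp_le (by positivity),
        le_div_iff₀ b3]
      nlinarith

end Pool.Agent.MP_c853c5_nt.DV
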