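import Pool.Agent.MP_c853c5_nt.DV.Defs
import Pool.Agent.MP_c853c5_nt.E.Basic

/-!
The mean square at the scale of the dual problem.
-/

set_option autoImplicit false

open Finset Filter Real MeasureTheory

namespace Pool.Agent.MP_c853c5_nt.DV

open DS (PrK Wid)
open DU (Geo)

lemma cont_DualV (Δ Γ : ℝ) (D R : Finset ℕ) (b c : ℕ → ℝ) : Continuous (Dv Δ Γ D R b c) := by
  unfold Dv E.dg Z.gg
  fun_prop

lemma cardD_DualV {K : ℕ} {D : Finset ℕ} (h : PrK K D) : (D.card : ℝ) ≤ K := by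
  have h1 : D ⊆ Ico K (2 * K) := fun k hk => mem_Ico.2 (h k hk).2
  have h2 := card_le_card h1
  rw [Nat.card_Ico] at h2
  exact_mod_cast h2.trans (by omega)

lemma cardR_DualV {P : ℕ} (hP : 1 ≤ P) (Λ : ℕ) : ((Icc P (Λ * P)).card : ℝ) ≤ Λ * P := by
  have h2 : (Icc P (Λ * P)).card ≤ Λ * P := by
    rw [Nat.card_Icc]
    omega
  exact_mod_cast h2

lemma sqrt_DualV {P Λ : ℕ} (hP : 1 ≤ P) (hΛ : 1 ≤ Λ) {c : ℕ → ℝ} {β : ℝ}
    (hc : ∀ n, |c n| ≤ β) : √(P * ∑ n ∈ Icc P (Λ * P), c n ^ 2) ≤ Λ * β * P := by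
  have hβ : 0 ≤ β := (abs_nonneg _).trans (hc 0)
  have hΛ' : (1 : ℝ) ≤ Λ := by exact_mod_cast hΛ
  have h1 : ∑ n ∈ Icc P (Λ * P), c n ^ 2 ≤ Λ * P * β ^ 2 := by
    refine (sum_le_card_nsmul _ _ (β ^ 2) fun n _ => ?_).trans ?_
    · rw [← sq_abs]
      exact pow_le_pow_left₀ (abs_nonneg _) (hc n) 2
    · rw [nsmul_eq_mul]
      exact mul_le_mul_of_nonneg_right (cardR_DualV hP Λ) (by positivity)
  refine Real.sqrt_le_iff.2 ⟨by positivity, ?_⟩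
  have h2 : (Λ : ℝ) ≤ Λ ^ 2 := by nlinarith
  calc (P : ℝ) * ∑ n ∈ Icc P (Λ * P), c n ^ 2 ≤ P * (Λ * P * β ^ 2) := by gcongr
    _ = Λ * (β * P) ^ 2 := by ring
    _ ≤ Λ ^ 2 * (β * P) ^ 2 := by gcongr
    _ = _ := by ring

lemma abs_DualV {K P : ℕ} (Λ : ℕ) {D : Finset ℕ} (h : PrK K D) (hP : 1 ≤ P) {b c : ℕ → ℝ} {β : ℝ}
    (hb : ∀ n, |b n| ≤ 1) (hc : ∀ n, |c n| ≤ β) :
    ∑ u ∈ D ×ˢ Icc P (Λ * P), |b u.1 * c u.2| ≤ β * Λ * (K * P) := by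
  have hβ : 0 ≤ β := (abs_nonneg _).trans (hc 0)
  refine (sum_le_card_nsmul _ _ β fun u _ => ?_).trans ?_
  · rw [abs_mul]
    exact (mul_le_mul (hb _) (hc _) (abs_nonneg _) zero_le_one).trans_eq (one_mul β)
  · rw [nsmul_eq_mul, card_product, Nat.cast_mul]
    have h1 := cardD_DualV h
    have h2 := cardR_DualV hP Λ
    calc (D.card : ℝ) * (Icc P (Λ * P)).card * β ≤ K * (Λ * P) * β := by gcongr
      _ = _ := by ring

lemma low_DualV {Cv σ T₀ T : ℝ} {P Λ : ℕ} {D : Finset ℕ} {b c : ℕ → ℝ} (hCv : 0 < Cv)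
    (hV : ∀ (R : Finset ℕ) (c : ℕ → ℝ) (Y : ℕ) (T₀ T : ℝ), 0 ≤ T₀ → T₀ ≤ T → R ⊆ Icc 1 Y →
      ∫ t in T₀..T, ‖E.FP R c t‖ ^ 2 ≤ Cv * (T + Y) * ∑ n ∈ R, c n ^ 2)
    (hP : 1 ≤ P) (h0 : 0 ≤ T₀) (h1 : T₀ ≤ T) (h2 : T ≤ P)
    (hσ : ∀ t, T₀ ≤ t → t ≤ T → ‖E.FP D b t‖ ≤ σ) :
    ∫ t in T₀..T, ‖E.FP D b t‖ ^ 2 * ‖E.FP (Icc P (Λ * P)) c t‖ ^ 2 ≤
      Cv * (1 + Λ) * (σ ^ 2 * P * ∑ n ∈ Icc P (Λ * P), c n ^ 2) := by
  have c1 := E.continuous_FP D b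
  have c2 := E.continuous_FP (Icc P (Λ * P)) c
  have h3 := hV (Icc P (Λ * P)) c (Λ * P) T₀ T h0 h1 (Icc_subset_Icc_left hP)
  have h4 : 0 ≤ ∑ n ∈ Icc P (Λ * P), c n ^ 2 := by positivity
  calc ∫ t in T₀..T, ‖E.FP D b t‖ ^ 2 * ‖E.FP (Icc P (Λ * P)) c t‖ ^ 2
      ≤ ∫ t in T₀..T, σ ^ 2 * ‖E.FP (Icc P (Λ * P)) c t‖ ^ 2 := by
        refine intervalIntegral.integral_mono_on h1 (Continuous.intervalIntegrable (by fun_prop) _ _)
          (Continuous.intervalIntegrable (by fun_prop) _ _) fun t ht => ?_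
        have := hσ t ht.1 ht.2
        gcongr
    _ = σ ^ 2 * ∫ t in T₀..T, ‖E.FP (Icc P (Λ * P)) c t‖ ^ 2 :=
        intervalIntegral.integral_const_mul _ _
    _ ≤ σ ^ 2 * (Cv * (T + (Λ * P : ℕ)) * ∑ n ∈ Icc P (Λ * P), c n ^ 2) := by gcongr
    _ ≤ σ ^ 2 * (Cv * (P + (Λ * P : ℕ)) * ∑ n ∈ Icc P (Λ * P), c n ^ 2) := by gcongr
    _ = _ := by
        push_cast
        ring

lemma tail_DualV (hT : TailStmt) {x Δ β : ℝ} {K P Λ : ℕ} {D : Finset ℕ} {b c : ℕ → ℝ}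
    (hx : 1 ≤ x) (hl : Real.log x ≤ x ^ (1 / 500 : ℝ)) (h1 : x ^ (-(1 / 2) : ℝ) ≤ Δ)
    (h2 : Δ ≤ x ^ (-(1 / 1000) : ℝ)) (hK : 1 ≤ K) (hP : 1 ≤ P) (hΛ : 1 ≤ Λ) (hD : PrK K D)
    (hb : ∀ n, |b n| ≤ 1) (hc : ∀ n, |c n| ≤ β) :
    ∫ v, Dv Δ (x ^ (-(1 / 1000) : ℝ)) D (Icc P (Λ * P)) b c v ^ 2 ≤
      (∫ v in (Real.log (K * P) - 1)..(Real.log (2 * Λ * (K * P)) + 1),
        Dv Δ (x ^ (-(1 / 1000) : ℝ)) D (Icc P (Λ * P)) b c v ^ 2) +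
      2 * Λ ^ 2 * (β ^ 2 * (K * P) ^ 2 * x ^ (-(1 / 2) : ℝ)) := by
  have hx0 : 0 < x := by linarith
  have hΔ : 0 < Δ := (Real.rpow_pos_of_pos hx0 _).trans_le h1
  have hK' : (1 : ℝ) ≤ K := by exact_mod_cast hK
  have hP' : (1 : ℝ) ≤ P := by exact_mod_cast hP
  have hΛ' : (1 : ℝ) ≤ Λ := by exact_mod_cast hΛ
  have hβ : 0 ≤ β := (abs_nonneg _).trans (hc 0)
  have h3 := hT (ℕ × ℕ) (D ×ˢ Icc P (Λ * P)) (fun u => b u.1 * c u.2)
    (fun u => Real.log ((u.1 : ℝ) * u.2)) Δ (x ^ (-(1 / 1000) : ℝ)) (Real.log (K * P))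
    (Real.log (2 * Λ * (K * P))) hΔ h2
    (Real.log_le_log (by positivity) (le_mul_of_one_le_left (by positivity) (by linarith)))
    fun u hu => by
      obtain ⟨k1, k2⟩ := mem_product.1 hu
      obtain ⟨-, k3, k4⟩ := hD _ k1
      obtain ⟨k5, k6⟩ := mem_Icc.1 k2
      have k7 : (K : ℝ) ≤ u.1 := by exact_mod_cast k3
      have k8 : (u.1 : ℝ) ≤ 2 * K := by exact_mod_cast k4.le
      have k9 : (P : ℝ) ≤ u.2 := by exact_mod_cast k5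
      have k10 : (u.2 : ℝ) ≤ Λ * P := by exact_mod_cast k6
      have k11 : (0 : ℝ) < u.1 := by linarith
      have k12 : (0 : ℝ) < u.2 := by linarith
      refine ⟨Real.log_le_log (by positivity) (by gcongr), Real.log_le_log (by positivity) ?_⟩
      calc (u.1 : ℝ) * u.2 ≤ 2 * K * (Λ * P) := by gcongr
        _ = _ := by ring
  refine h3.trans (add_le_add le_rfl ?_)
  have h4 := abs_DualV Λ hD hP hb hc
  have h5 : Real.exp (-(π / (x ^ (-(1 / 1000) : ℝ)) ^ 2)) ≤ x⁻¹ := by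
    have e : π / (x ^ (-(1 / 1000) : ℝ)) ^ 2 = π * x ^ (1 / 500 : ℝ) := by
      rw [← Real.rpow_natCast, ← Real.rpow_mul hx0.le, div_eq_mul_inv, ← Real.rpow_neg hx0.le]
      norm_num
    rw [e, ← Real.exp_log (inv_pos.2 hx0), Real.log_inv, Real.exp_le_exp, neg_le_neg_iff]
    refine hl.trans (le_mul_of_one_le_left (by positivity) ?_)
    linarith [Real.pi_gt_three]
  have h6 : Δ⁻¹ ≤ (x ^ (-(1 / 2) : ℝ))⁻¹ := inv_anti₀ (Real.rpow_pos_of_pos hx0 _) h1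
  have h7 : (x ^ (-(1 / 2) : ℝ))⁻¹ * x⁻¹ = x ^ (-(1 / 2) : ℝ) := by
    rw [← Real.rpow_neg hx0.le, ← Real.rpow_neg_one, ← Real.rpow_add hx0]
    norm_num
  have h8 : 0 ≤ ∑ u ∈ D ×ˢ Icc P (Λ * P), |b u.1 * c u.2| := by positivity
  calc 2 * (∑ u ∈ D ×ˢ Icc P (Λ * P), |b u.1 * c u.2|) ^ 2 / Δ *
        Real.exp (-(π / (x ^ (-(1 / 1000) : ℝ)) ^ 2))
      ≤ 2 * (β * Λ * (K * P)) ^ 2 * (x ^ (-(1 / 2) : ℝ))⁻¹ * x⁻¹ := by
        rw [div_eq_mul_inv]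
        gcongr
    _ = 2 * (β * Λ * (K * P)) ^ 2 * ((x ^ (-(1 / 2) : ℝ))⁻¹ * x⁻¹) := by ring
    _ = _ := by
        rw [h7]
        ring

lemma cov_DualV (hC : CovStmt) {x Δ Γ M : ℝ} {K P N Λ : ℕ} {D : Finset ℕ} {b c : ℕ → ℝ}
    (hx : 0 < x) (hK : 1 ≤ K) (hP : 1 ≤ P) (hΛ : 1 ≤ Λ) (hN : 1 ≤ N)
    (h1 : 11 * Λ * (K * P) * N ≤ x) (h2 : x ≤ 22 * Λ * (K * P) * N) (hM : 0 ≤ M)
    (h : ∀ X : ℝ, x / 2 ≤ X → X ≤ 2 * x →
      Hw Δ Γ D (Icc P (Λ * P)) (Icc N (128 * Λ * N)) b c (Real.log X) ≤ M) :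
    ∫ v in (Real.log (K * P) - 1)..(Real.log (2 * Λ * (K * P)) + 1),
      Dv Δ Γ D (Icc P (Λ * P)) b c v ^ 2 ≤ 6 * M := by
  have hK' : (1 : ℝ) ≤ K := by exact_mod_cast hK
  have hP' : (1 : ℝ) ≤ P := by exact_mod_cast hP
  have hΛ' : (1 : ℝ) ≤ Λ := by exact_mod_cast hΛ
  have hN' : (1 : ℝ) ≤ N := by exact_mod_cast hN
  have c1 := cont_DualV Δ Γ D (Icc P (Λ * P)) b c
  have he := Real.exp_one_lt_d9
  have he0 := Real.exp_pos 1
  have hA : (0 : ℝ) < Λ * (K * P) * N := by positivity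
  have h3 : Real.log (K * P) ≤ Real.log (2 * Λ * (K * P)) :=
    Real.log_le_log (by positivity) (le_mul_of_one_le_left (by positivity) (by linarith))
  have h4 := hC (fun v => Dv Δ Γ D (Icc P (Λ * P)) b c v ^ 2) x (Real.log (K * P) - 1)
    (Real.log (2 * Λ * (K * P)) + 1) N (128 * Λ * N) (by fun_prop) (fun v => by positivity) hx
    (by linarith) hN
    (by
      rw [Real.exp_add, Real.exp_log (by positivity)]
      nlinarith)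
    (by
      rw [Real.exp_sub, Real.exp_log (by positivity), ← mul_div_assoc, le_div_iff₀ he0]
      push_cast
      nlinarith)
  refine h4.trans ?_
  have h5 : Real.log (x / 2) ≤ Real.log (2 * x) := Real.log_le_log (by positivity) (by linarith)
  have h6 : Real.log (2 * x) - Real.log (x / 2) ≤ 3 := by
    rw [← Real.log_div (by positivity) (by positivity), show 2 * x / (x / 2) = 4 by field_simp; ring]
    linarith [Real.log_le_sub_one_of_pos (show (0 : ℝ) < 4 by norm_num)]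
  have h7 : ∫ w in (Real.log (x / 2))..(Real.log (2 * x)), ∑ n ∈ Icc N (128 * Λ * N),
      Dv Δ Γ D (Icc P (Λ * P)) b c (w - Real.log n) ^ 2 / n ≤
      ∫ _ in (Real.log (x / 2))..(Real.log (2 * x)), M := by
    refine intervalIntegral.integral_mono_on h5 (Continuous.intervalIntegrable (by fun_prop) _ _)
      (Continuous.intervalIntegrable continuous_const _ _) fun w hw => ?_
    have h8 := h (Real.exp w) ((Real.log_le_iff_le_exp (by positivity)).1 hw.1)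
      ((Real.le_log_iff_exp_le (by positivity)).1 hw.2)
    rwa [Real.log_exp] at h8
  rw [intervalIntegral.integral_const, smul_eq_mul] at h7
  have h9 := mul_le_mul_of_nonneg_right h6 hM
  linarith

theorem dual_stmt (hH : HStmt) (hV : MvStmt) (hP : PlanStmt) (hT : TailStmt) (hS : SupStmt)
    (hC : CovStmt) : DualStmt := by
  intro r Λ μ hr hΛ hμ
  obtain ⟨ν, CH, hν, hCH, hH⟩ := hH r Λ μ hr hΛ hμ
  obtain ⟨Cv, hCv, hV⟩ := hV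
  obtain ⟨Cs, hCs, hS⟩ := hS
  have hΛ' : (1 : ℝ) ≤ Λ := by exact_mod_cast hΛ
  have hπ := Real.pi_pos
  refine ⟨min (ν / 2) (1 / 2), Cv * (1 + Λ) + 8 * π * (6 * CH * (1 + Cs * Λ ^ 2) + 2 * Λ ^ 2),
    by positivity, by positivity, ?_⟩
  filter_upwards [hH, eventually_ge_atTop 1, E.ev_log_le 1 1 (show 0 < ν / 2 by positivity),
    E.ev_log_le 1 1 (show (0 : ℝ) < 1 / 500 by norm_num), E.ev_le_log 1] with x hH hx l1 l2 l3
  intro Δ σ β T₀ T₁ K P N D b c hG hD n1 n2 n3 n4 n5 hb hc t0 t1 t2 t3 hσ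
  rw [pow_one, one_mul] at l1 l2
  have hx0 : 0 < x := by linarith
  have g := hG x (by linarith) (by linarith)
  have hΔ : 0 < Δ := (Real.rpow_pos_of_pos hx0 _).trans_le g.d1
  have hΓ : 0 < x ^ (-(1 / 1000) : ℝ) := Real.rpow_pos_of_pos hx0 _
  have hΔΓ : Δ ≤ x ^ (-(1 / 1000) : ℝ) :=
    g.d2.trans (Real.rpow_le_rpow_of_exponent_le hx (by norm_num))
  have x1 : 1 ≤ x ^ (1 / 1000 : ℝ) := Real.one_le_rpow hx (by norm_num)
  have hP' : (1 : ℝ) ≤ P := by linarith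
  have hP1 : 1 ≤ P := by exact_mod_cast hP'
  have hK' : (1 : ℝ) ≤ K := by exact_mod_cast g.k1
  have hN' : (1 : ℝ) ≤ N := by exact_mod_cast g.p1
  have hβ : 0 ≤ β := (abs_nonneg _).trans (hc 0)
  have e4 : 4 / x ^ (-(1 / 1000) : ℝ) = 4 * x ^ (1 / 1000 : ℝ) := by
    rw [Real.rpow_neg hx0.le, div_inv_eq_mul]
  have t4 : T₀ ≤ 4 * x ^ (1 / 1000 : ℝ) := by
    have := Real.rpow_le_rpow_of_exponent_le hx (show (1 / 2000 : ℝ) ≤ 1 / 1000 by norm_num)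
    linarith
  have t5 : T₁ ≤ Real.log x / Δ := t3.trans (div_le_div_of_nonneg_right l3 hΔ.le)
  set Q := ∑ n ∈ Icc P (Λ * P), c n ^ 2 with hQ
  have hQ0 : 0 ≤ Q := by positivity
  have hA : 0 ≤ σ ^ 2 * P * Q := by positivity
  have hB : 0 ≤ β ^ 2 * (K * P) ^ 2 * x ^ (-min (ν / 2) (1 / 2)) := by positivity
  have hlow : ∀ T, T₀ ≤ T → T ≤ T₁ → T ≤ 4 * x ^ (1 / 1000 : ℝ) →
      ∫ t in T₀..T, ‖E.FP D b t‖ ^ 2 * ‖E.FP (Icc P (Λ * P)) c t‖ ^ 2 ≤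
        Cv * (1 + Λ) * (σ ^ 2 * P * Q) := fun T k1 k2 k3 =>
    low_DualV hCv hV hP1 t0 k1 (by linarith) fun t k4 k5 => hσ t k4 (by linarith)
  have hW : 0 ≤ 8 * π * (6 * CH * (1 + Cs * Λ ^ 2) + 2 * Λ ^ 2) := by positivity
  have hW' : 0 ≤ Cv * (1 + Λ) := by positivity
  rcases le_total T₁ (4 * x ^ (1 / 1000 : ℝ)) with t6 | t6
  · refine (hlow T₁ t2 le_rfl t6).trans ?_
    gcongr
    · linarith
    · linarith
  rcases hβ.eq_or_lt with hβ0 | hβ0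
  · have h1 : ∀ t, E.FP (Icc P (Λ * P)) c t = 0 := fun t =>
      sum_eq_zero fun n _ => by
        rw [abs_nonpos_iff.1 ((hc n).trans hβ0.ge), Complex.ofReal_zero, zero_mul]
    simp only [h1, norm_zero, zero_pow two_ne_zero, mul_zero, intervalIntegral.integral_zero]
    positivity
  have c1 := E.continuous_FP D b
  have c2 := E.continuous_FP (Icc P (Λ * P)) c
  have hKP : (1 : ℝ) ≤ K * P := one_le_mul_of_one_le_of_one_le hK' hP'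
  have hL : (1 : ℝ) ≤ Λ * (K * P) := one_le_mul_of_one_le_of_one_le hΛ' hKP
  have s1 : 0 < Real.log (2 * Λ * (K * P)) := Real.log_pos (by nlinarith)
  have s2 : Real.log (2 * Λ * (K * P)) ≤ Real.log x :=
    Real.log_le_log (by positivity) (by nlinarith)
  have r1 : x ^ (ν / 2) * x ^ (-ν) ≤ x ^ (-min (ν / 2) (1 / 2)) := by
    rw [← Real.rpow_add hx0]
    exact Real.rpow_le_rpow_of_exponent_le hx (by linarith [min_le_left (ν / 2) (1 / 2)])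
  have r2 : x ^ (-(1 / 2) : ℝ) ≤ x ^ (-min (ν / 2) (1 / 2)) :=
    Real.rpow_le_rpow_of_exponent_le hx (neg_le_neg (min_le_right _ _))
  have hcov := cov_DualV hC (Δ := Δ) (Γ := x ^ (-(1 / 1000) : ℝ)) (D := D) (b := b) (c := c)
    (M := CH * (σ ^ 2 * P * Q + Cs * Λ ^ 2 * (β ^ 2 * (K * P) ^ 2 * x ^ (-min (ν / 2) (1 / 2)))))
    hx0 g.k1 hP1 hΛ g.p1 n1 n2 (by positivity) fun X k1 k2 => by
      refine (hH X Δ _ σ (Cs * β * (Λ * (K * P)) * Real.log (2 * Λ * (K * P))) K P N D b c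
        (hG X k1 k2) ⟨by linarith, le_rfl⟩ hD hP1 n1 n2 n3 hb (by positivity)
        (fun v => hS Δ _ β v K P Λ D b c hΔ hΔΓ g.k1 hP1 hΛ hD hb hc n4)
        fun t k3 k4 => hσ t (t1.trans k3) k4).trans ?_
      have k3 := sqrt_DualV hP1 hΛ hc
      have k4 := s2.trans l1
      refine mul_le_mul_of_nonneg_left (add_le_add le_rfl ?_) hCH.le
      calc Cs * β * (Λ * (K * P)) * Real.log (2 * Λ * (K * P)) * K * √(P * Q) * x ^ (-ν)
          ≤ Cs * β * (Λ * (K * P)) * x ^ (ν / 2) * K * (Λ * β * P) * x ^ (-ν) := by gcongr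
        _ = Cs * Λ ^ 2 * (β ^ 2 * (K * P) ^ 2 * (x ^ (ν / 2) * x ^ (-ν))) := by ring
        _ ≤ _ := by gcongr
  have htail := tail_DualV hT hx l2 g.d1 hΔΓ g.k1 hP1 hΛ hD hb hc
  have hplan := hP Δ _ (4 * x ^ (1 / 1000 : ℝ)) T₁ D (Icc P (Λ * P)) b c hΔ hΓ
    (fun h0 => Nat.not_prime_zero (hD 0 h0).1) (fun h0 => by
      have := (mem_Icc.1 h0).1
      omega) e4.le t6 t3
  have r3 : β ^ 2 * (K * P) ^ 2 * x ^ (-(1 / 2) : ℝ) ≤
      β ^ 2 * (K * P) ^ 2 * x ^ (-min (ν / 2) (1 / 2)) := by gcongr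
  rw [← intervalIntegral.integral_add_adjacent_intervals (b := 4 * x ^ (1 / 1000 : ℝ))
    (Continuous.intervalIntegrable (by fun_prop) _ _)
    (Continuous.intervalIntegrable (by fun_prop) _ _)]
  have hl := hlow _ t4 t6 le_rfl
  generalize β ^ 2 * (K * P) ^ 2 * x ^ (-min (ν / 2) (1 / 2)) = B at *
  generalize σ ^ 2 * P * Q = A at *
  have f1 : ∫ v, Dv Δ (x ^ (-(1 / 1000) : ℝ)) D (Icc P (Λ * P)) b c v ^ 2 ≤
      (6 * CH * (1 + Cs * Λ ^ 2) + 2 * Λ ^ 2) * (A + B) := by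
    have k1 : 2 * (Λ : ℝ) ^ 2 * (β ^ 2 * (K * P) ^ 2 * x ^ (-(1 / 2) : ℝ)) ≤
        2 * Λ ^ 2 * (A + B) := mul_le_mul_of_nonneg_left (by linarith) (by positivity)
    have k2 : A + Cs * Λ ^ 2 * B ≤ (1 + Cs * Λ ^ 2) * (A + B) := by
      have : 0 ≤ Cs * Λ ^ 2 * A := by positivity
      linarith
    have k3 := mul_le_mul_of_nonneg_left k2 hCH.le
    linarith
  have f2 := mul_le_mul_of_nonneg_left f1 (show 0 ≤ 8 * π by positivity)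
  have f3 := mul_le_mul_of_nonneg_left (show A ≤ A + B by linarith) hW'
  linarith

end Pool.Agent.MP_c853c5_nt.DV
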