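import Pool.Agent.MP_c853c5_nt.DV.Defs
import Pool.Agent.MP_c853c5_nt.DS.E3d

/-!
The final bound with the new mean square.
-/

set_option autoImplicit false

open Finset Filter Real

namespace Pool.Agent.MP_c853c5_nt.DV

open DS (L2Stmt GrpStmt div_E3d l2_E3d size_E3d FP_eq_E3d split_E3d)
open S (AF Slot prI Dl)

theorem e4d_of (hT : DU.TriStmt) (hG : DU.GeoStmt) (hV : VStmt) (hL : L2Stmt) (hR : GrpStmt)
    (hP : Z.PrStmt) : E4D := by
  intro ι _ τ t η K A ht htτ hτ hη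
  classical
  set k := Fintype.card ι with hk
  have h2 : 0 < η / 2 := by positivity
  have hΛ : 1 ≤ 2 ^ k := Nat.one_le_two_pow
  have keyG := fun r : {r : Fin (K + 1) // 2 ≤ (r : ℕ)} => hG r.1 η r.2 hη
  choose μ γG hμ hγG hGq using keyG
  have keyT := fun r : {r : Fin (K + 1) // 2 ≤ (r : ℕ)} =>
    hT r.1 (2 ^ k) A (k ^ 2 + 1) (μ r) r.2 hΛ (hμ r)
  choose ε hε hTq using keyT
  have keyV := fun r : {r : Fin (K + 1) // 2 ≤ (r : ℕ)} =>
    hV r.1 (2 ^ k) (2 * A + (k ^ 2 + 1) + 2) (k ^ 2 + 1) η r.2 hΛ hη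
  choose εV γV hεV hγV hVq using keyV
  have hγG' : ∀ r, 0 < γG r / (k + 1) := fun r => div_pos (hγG r) (by positivity)
  have hγV' : ∀ r, 0 < γV r / (k + 1) := fun r => div_pos (hγV r) (by positivity)
  obtain ⟨γ, ⟨hγ2, hγ3⟩, hγ, hγ1⟩ := (((eventually_all.2 fun r => Ioc_mem_nhdsGT (hγV' r)).and
    (eventually_all.2 fun r => Ioc_mem_nhdsGT (hγG' r))).and (Ioc_mem_nhdsGT h2)).exists
  refine ⟨γ, hγ, ?_⟩
  filter_upwards [eventually_all.2 hVq, eventually_all.2 hGq, eventually_all.2 hTq,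
    eventually_all.2 fun r => div_E3d k (2 ^ k) (hε r),
    eventually_all.2 fun r => div_E3d k (2 ^ k) (hεV r), l2_E3d hL k (2 ^ k) hΛ,
    E.prime_slot hP h2 (show (0 : ℝ) < 1 / 2000 by norm_num)
      (2 * A + (k ^ 2 + 1) + 2 + (k ^ 2 + 1) + 1),
    E.ev_le_log 1, eventually_ge_atTop 1]
    with x hx hxG hxT hd hdV hl2 hp l1 x1 pr a N g ha hE hS hN hpr hle
  obtain ⟨B, i, r, q, hr2, hrK, hq2, hqK, hiB, hi, hD, hE⟩ := hE
  have x0 : 0 < x := by linarith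
  let r' : {r : Fin (K + 1) // 2 ≤ (r : ℕ)} := ⟨⟨r, by omega⟩, hr2⟩
  let q' : {r : Fin (K + 1) // 2 ≤ (r : ℕ)} := ⟨⟨q, by omega⟩, hq2⟩
  set R := (univ \ B).erase i with hRdef
  have ai : η ≤ a i := by linarith [hD.2.2.2.1, le_max_left 0 (τ - ∑ l ∈ B, a l)]
  have low : ∀ l, η ≤ a l → x ^ (η / 2) ≤ (N l : ℝ) := fun l hl =>
    (Real.rpow_le_rpow_of_exponent_le x1 (by linarith)).trans (hN l).1
  obtain ⟨P, Q, hg⟩ := hpr i hi
  have sz := size_E3d x1 hγ.le (hγ3 r').2 hN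
  have szV := size_E3d x1 hγ.le (hγ2 q').2 hN
  have hM1 : ∀ C : Finset ι, 1 ≤ ∏ l ∈ C, N l := fun C =>
    Nat.succ_le_of_lt (prod_pos fun l _ => (hS l).1)
  have hM1' : ∀ C : Finset ι, (1 : ℝ) ≤ (∏ l ∈ C, N l : ℕ) := fun C => by exact_mod_cast hM1 C
  have hK1 : (1 : ℝ) ≤ N i := by exact_mod_cast (hS i).1
  have hle' : ((∏ l ∈ B, N l : ℕ) : ℝ) * (N i * (∏ l ∈ R, N l : ℕ)) ≤ 2 * x := by
    rw [split_E3d hiB] at hle
    push_cast
    rwa [← mul_assoc]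
  have hKP : (1 : ℝ) ≤ N i * (∏ l ∈ R, N l : ℕ) := one_le_mul_of_one_le_of_one_le hK1 (hM1' R)
  have hMx : ((∏ l ∈ B, N l : ℕ) : ℝ) ≤ 2 * x :=
    (le_mul_of_one_le_right (Nat.cast_nonneg _) hKP).trans hle'
  have hPx : ((∏ l ∈ R, N l : ℕ) : ℝ) ≤ 2 * x :=
    ((le_mul_of_one_le_left (Nat.cast_nonneg _) hK1).trans
      (le_mul_of_one_le_left (by positivity) (hM1' B))).trans hle'
  have hsup : ∀ (C : Finset ι) (n : ℕ), (∏ l ∈ C, g l) n ≠ 0 →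
      n ∈ Icc (∏ l ∈ C, N l) (2 ^ k * ∏ l ∈ C, N l) := fun C n hn =>
    Icc_subset_Icc_right (Nat.mul_le_mul_right _ (Nat.pow_le_pow_right two_pos (card_le_univ C)))
      ((hR ι C N g fun l _ => hS l).1 n hn)
  have hbd : ∀ e : ℝ, (∀ n m : ℕ, m ≤ k → (n : ℝ) ≤ (2 ^ k : ℕ) * (2 * x) →
      (n.divisors.card : ℝ) ^ m ≤ x ^ e) → ∀ C : Finset ι, ((∏ l ∈ C, N l : ℕ) : ℝ) ≤ 2 * x →
      ∀ n, |(∏ l ∈ C, g l) n| ≤ x ^ e := by
    intro e he C hC n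
    by_cases hn : (∏ l ∈ C, g l) n = 0
    · rw [hn, abs_zero]
      positivity
    refine ((hR ι C N g fun l _ => hS l).2.2.1 n).trans (he n _ (card_le_univ C) ?_)
    have h3 : (n : ℝ) ≤ (2 ^ k * ∏ l ∈ C, N l : ℕ) := by
      exact_mod_cast (mem_Icc.1 (hsup C n hn)).2
    rw [Nat.cast_mul] at h3
    exact h3.trans (mul_le_mul_of_nonneg_left hC (Nat.cast_nonneg _))
  have hDs : ∀ n, g i n ≠ 0 → n ∈ (Ico (N i) (2 * N i)).filter Nat.Prime := by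
    intro n hn
    refine mem_filter.2 ⟨mem_Ico.2 ((hS i).2.2 n hn), ?_⟩
    by_contra h0
    simp [hg, prI, h0] at hn
  have ht1 : max t (τ - η / 2) ≤ τ := max_le htτ.le (by linarith)
  have ht2 : 1 / 3 ≤ max t (τ - η / 2) := ht.trans (le_max_left _ _)
  have hγi : γ ≤ γG r' := (hγ3 r').2.trans (div_le_self (hγG r').le (by simp))
  have hγj : γ ≤ γV q' := (hγ2 q').2.trans (div_le_self (hγV q').le (by simp))
  have hPr : DS.PrK (N i) ((Ico (N i) (2 * N i)).filter Nat.Prime) :=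
    fun n hn => ⟨(mem_filter.1 hn).2, mem_Ico.1 (mem_filter.1 hn).1⟩
  rw [split_E3d hiB]
  refine hxT r' t (max t (τ - η / 2)) (∏ l ∈ B, N l) (N i) (∏ l ∈ R, N l)
    ((Ico (N i) (2 * N i)).filter Nat.Prime) _ _ _ ht (le_max_left _ _)
    (hxG r' τ _ _ _ _ _ _ _ ht2 ht1 hτ (le_max_right _ _) hD (sz B).1
      ((Real.rpow_le_rpow_of_exponent_le x1 (by linarith)).trans (hN i).1)
      ((hN i).2.trans (Real.rpow_le_rpow_of_exponent_le x1 (by linarith))) (sz R).1 (sz R).2 hle')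
    hPr (hM1 B) hle' (hsup B) hDs
    (hsup R) (hbd _ (hd r') B hMx) (hS i).2.1 (hbd _ (hd r') R hPx)
    (hl2 _ _ _ (card_le_univ B) (hM1 B) hMx (hR ι B N g fun l _ => hS l).2.1) ?_
  have eT : Real.log x / x ^ (-max t (τ - η / 2)) = x ^ max t (τ - η / 2) * Real.log x := by
    rw [Real.rpow_neg x0.le, div_inv_eq_mul, mul_comm]
  refine hx q' τ _ _ _ _ _ _ _ _ hτ hE
    ((Real.rpow_le_rpow_of_exponent_le x1 (by linarith)).trans (hN i).1)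
    ((hN i).2.trans (Real.rpow_le_rpow_of_exponent_le x1 (by linarith))) (szV R).1 (szV R).2
    ?_ ?_ hPr (hS i).2.1 (hbd _ (hdV q') R hPx)
    (hl2 _ _ _ (card_le_univ R) (hM1 R) hPx (hR ι R N g fun l _ => hS l).2.1) fun s h3 h4 => ?_
  · rw [eT]
    exact (Real.rpow_le_rpow_of_exponent_le x1 (by linarith)).trans
      (le_mul_of_one_le_right (by positivity) l1)
  · rw [eT]
    exact mul_le_mul_of_nonneg_right (Real.rpow_le_rpow_of_exponent_le x1 ht1) (by linarith)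
  · rw [FP_eq_E3d hDs (s' := Icc (N i) (2 * N i)) fun n hn =>
      mem_Icc.2 ⟨((hS i).2.2 n hn).1, ((hS i).2.2 n hn).2.le⟩]
    have := hp _ P Q s (low i ai) h3 h4
    rwa [← hg] at this

end Pool.Agent.MP_c853c5_nt.DV
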