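import Pool.Agent.MP_c853c5_nt.DV.Defs

/-! The bound that improves itself. -/

set_option autoImplicit false

open Finset Filter Real MeasureTheory

namespace Pool.Agent.MP_c853c5_nt.DV

open DS (PrK Wid FF)

lemma id_HV (X Δ Γ : ℝ) (D R R' : Finset ℕ) (b c c' : ℕ → ℝ) (hD : 0 ∉ D) (hR : 0 ∉ R)
    (hR' : 0 ∉ R') :
    ∑ m ∈ R, c m * FF X Δ Γ D R' b c' m =
      ∑ n ∈ R', c' n * Dv Δ Γ D R b c (Real.log X - Real.log n) := by
  simp only [FF, Dv, sum_product, mul_sum]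
  rw [sum_comm]
  conv_rhs => rw [sum_comm]
  refine sum_congr rfl fun k hk => ?_
  rw [sum_comm]
  refine sum_congr rfl fun n hn => sum_congr rfl fun m hm => ?_
  have h1 : (k : ℝ) ≠ 0 := Nat.cast_ne_zero.2 fun h => hD (h ▸ hk)
  have h2 : (m : ℝ) ≠ 0 := Nat.cast_ne_zero.2 fun h => hR (h ▸ hm)
  have h3 : (n : ℝ) ≠ 0 := Nat.cast_ne_zero.2 fun h => hR' (h ▸ hn)
  have h4 : Real.log X - Real.log ((m : ℝ) * k * n) =
      Real.log X - Real.log n - Real.log ((k : ℝ) * m) := by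
    rw [Real.log_mul (mul_ne_zero h2 h1) h3, mul_comm (m : ℝ)]
    ring
  simp only [E.dg, h4]
  ring

lemma self_HV {H a e : ℝ} (ha : 0 ≤ a) (he : 0 ≤ e) (h : H ^ 2 ≤ a * H + e ^ 2) : H ≤ a + e := by
  by_contra hc
  nlinarith [mul_nonneg ha he]

theorem h_stmt (hM : DU.MeanStmt) (hV : MvStmt) : HStmt := by
  intro r Λ μ hr hΛ hμ
  obtain ⟨ν, hν, hM⟩ := hM r (128 * Λ) μ hr (by omega) hμ
  obtain ⟨Cv, hCv, hV⟩ := hV
  have hΛ' : (1 : ℝ) ≤ Λ := by exact_mod_cast hΛ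
  refine ⟨ν / 2, 4096 * 22 * 129 * Λ ^ 3 * Cv + 22 * Λ, by positivity, by positivity, ?_⟩
  filter_upwards [hM, E.ev_le_log 1, eventually_ge_atTop (1 : ℝ)] with x hM hl hx
  intro X Δ Γ σ S K P N D b c hG hW hD hP h1 h2 h3 hb hS hsup hσ
  have hx0 : 0 < x := by linarith
  have hK : (1 : ℝ) ≤ K := by exact_mod_cast hG.k1
  have hN : (1 : ℝ) ≤ N := by exact_mod_cast hG.p1
  have hP' : (1 : ℝ) ≤ P := by exact_mod_cast hP
  have hΔ : 0 < Δ := lt_of_lt_of_le (Real.rpow_pos_of_pos hx0 _) hG.d1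
  set R := Icc P (Λ * P) with hR
  set R' := Icc N (128 * Λ * N) with hR'
  set V : ℕ → ℝ := fun n => Dv Δ Γ D R b c (Real.log X - Real.log n) with hVd
  set H := Hw Δ Γ D R R' b c (Real.log X) with hH
  have hH' : H = ∑ n ∈ R', V n ^ 2 / n := rfl
  have hH0 : 0 ≤ H := hH' ▸ sum_nonneg fun n _ => by positivity
  set Q := ∑ n ∈ R, c n ^ 2 with hQ
  have hQ0 : 0 ≤ Q := sum_nonneg fun n _ => sq_nonneg _
  set s := S / N with hs
  have hs0 : 0 < s := by positivity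
  set c' : ℕ → ℝ := fun n => if N ≤ n then V n / (n * s) else 0 with hc'
  have hc1 : ∀ n, |c' n| ≤ 1 := by
    intro n
    simp only [hc']
    split_ifs with h
    · have h4 : (N : ℝ) ≤ n := by exact_mod_cast h
      have h5 : 0 < (n : ℝ) * s := mul_pos (by linarith) hs0
      rw [abs_div, abs_of_pos h5, div_le_one h5]
      refine (hsup _).trans ?_
      calc S = N * s := by rw [hs]; field_simp
        _ ≤ n * s := by gcongr
    · simp
  have hid : H = s * ∑ m ∈ R, c m * FF X Δ Γ D R' b c' m := by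
    rw [id_HV _ _ _ _ _ _ _ _ _ (fun h => Nat.not_prime_zero (hD 0 h).1)
      (fun h => by have := (mem_Icc.1 h).1; omega)
      (fun h => by have := (mem_Icc.1 h).1; have := hG.p1; omega), hH', mul_sum]
    refine sum_congr rfl fun n hn => ?_
    have h4 := (mem_Icc.1 hn).1
    have h5 : (N : ℝ) ≤ n := by exact_mod_cast h4
    have h6 : (n : ℝ) ≠ 0 := by linarith
    simp only [hc', if_pos h4]
    change _ = s * (V n / (n * s) * V n)
    field_simp
  have hsq : ∑ n ∈ R', c' n ^ 2 ≤ H / (N * s ^ 2) := by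
    rw [hH', sum_div]
    refine sum_le_sum fun n hn => ?_
    have h4 := (mem_Icc.1 hn).1
    have h5 : (N : ℝ) ≤ n := by exact_mod_cast h4
    have h6 : (0 : ℝ) < n := by linarith
    simp only [hc', if_pos h4]
    rw [div_pow, div_div]
    refine div_le_div_of_nonneg_left (sq_nonneg _) (by positivity) ?_
    calc (n : ℝ) * (N * s ^ 2) ≤ n * (n * s ^ 2) := by gcongr
      _ = (n * s) ^ 2 := by ring
  have hT : x ^ (1 / 2000 : ℝ) ≤ Real.log x / Δ := by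
    rw [le_div_iff₀ hΔ]
    calc x ^ (1 / 2000 : ℝ) * Δ ≤ x ^ (1 / 2000 : ℝ) * x ^ (-(1 / 3) : ℝ) :=
          mul_le_mul_of_nonneg_left hG.d2 (by positivity)
      _ = x ^ (1 / 2000 + -(1 / 3) : ℝ) := (Real.rpow_add hx0 _ _).symm
      _ ≤ 1 := Real.rpow_le_one_of_one_le_of_nonpos hx (by norm_num)
      _ ≤ _ := hl
  have hT1 : Real.log x / Δ ≤ N := by rwa [div_le_iff₀ hΔ]
  have hint : ∫ t in (x ^ (1 / 2000 : ℝ))..(Real.log x / Δ),
      ‖E.FP D b t‖ ^ 2 * ‖E.FP R' c' t‖ ^ 2 ≤ 129 * Λ * Cv * σ ^ 2 * H / s ^ 2 := by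
    have c1 := (E.continuous_FP D b).norm.pow 2
    have c2 := (E.continuous_FP R' c').norm.pow 2
    calc _ ≤ ∫ t in (x ^ (1 / 2000 : ℝ))..(Real.log x / Δ), σ ^ 2 * ‖E.FP R' c' t‖ ^ 2 := by
          refine intervalIntegral.integral_mono_on hT ((c1.mul c2).intervalIntegrable _ _)
            ((continuous_const.mul c2).intervalIntegrable _ _) fun t ht => ?_
          exact mul_le_mul_of_nonneg_right
            (pow_le_pow_left₀ (norm_nonneg _) (hσ t ht.1 ht.2) 2) (sq_nonneg _)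
      _ = σ ^ 2 * ∫ t in (x ^ (1 / 2000 : ℝ))..(Real.log x / Δ), ‖E.FP R' c' t‖ ^ 2 :=
          intervalIntegral.integral_const_mul _ _
      _ ≤ σ ^ 2 * (Cv * (Real.log x / Δ + (128 * Λ * N : ℕ)) * ∑ n ∈ R', c' n ^ 2) :=
          mul_le_mul_of_nonneg_left (hV R' c' _ _ _ (by positivity) hT
            (Icc_subset_Icc_left hG.p1)) (sq_nonneg _)
      _ ≤ σ ^ 2 * (Cv * (Λ * N + 128 * Λ * N) * (H / (N * s ^ 2))) := by
          push_cast
          have : Real.log x / Δ ≤ Λ * N := hT1.trans (le_mul_of_one_le_left (by linarith) hΛ')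
          gcongr
      _ = _ := by field_simp; ring
  have hm := hM X Δ Γ _ P K N D b c' hG hW hD hP (by
    have : (P : ℝ) * (K * N) * 1 ≤ P * (K * N) * (11 * Λ) :=
      mul_le_mul_of_nonneg_left (by linarith) (by positivity)
    linarith) hb hc1 hint
  have hsub : ∑ m ∈ R, FF X Δ Γ D R' b c' m ^ 2 ≤
      ∑ m ∈ Icc P (128 * Λ * P), FF X Δ Γ D R' b c' m ^ 2 :=
    sum_le_sum_of_subset_of_nonneg
      (Icc_subset_Icc_right (Nat.mul_le_mul_right _ (by omega))) fun _ _ _ => sq_nonneg _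
  have hcs := sum_mul_sq_le_sq_mul_sq R c (FF X Δ Γ D R' b c')
  have hxk : x / (K * N) ≤ 22 * Λ * P := by
    rw [div_le_iff₀ (by positivity)]
    linarith
  set y := x ^ (-(ν / 2)) with hy
  have hy0 : 0 < y := Real.rpow_pos_of_pos hx0 _
  have hy2 : x ^ (-ν) = y ^ 2 := by
    rw [hy, ← Real.rpow_natCast, ← Real.rpow_mul hx0.le]
    congr 1
    push_cast
    ring
  rw [hy2] at hm
  push_cast at hm
  have hrt : √(P * Q) ^ 2 = P * Q := Real.sq_sqrt (by positivity)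
  have key : H ^ 2 ≤ (4096 * 22 * 129 * Λ ^ 3 * Cv * (σ ^ 2 * P * Q)) * H +
      (22 * Λ * (S * K * √(P * Q) * y)) ^ 2 := by
    have e1 : s ^ 2 * (x * (K * N)) ≤ (22 * Λ) ^ 2 * (S ^ 2 * K ^ 2 * P) := by
      calc s ^ 2 * (x * (K * N)) = S ^ 2 * K ^ 2 * (x / (K * N)) := by rw [hs]; field_simp
        _ ≤ S ^ 2 * K ^ 2 * (22 * Λ * P) := by gcongr
        _ = (22 * Λ) * 1 * (S ^ 2 * K ^ 2 * P) := by ring
        _ ≤ (22 * Λ) * (22 * Λ) * (S ^ 2 * K ^ 2 * P) := by gcongr; linarith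
        _ = _ := by ring
    calc H ^ 2 = s ^ 2 * (∑ m ∈ R, c m * FF X Δ Γ D R' b c' m) ^ 2 := by rw [hid, mul_pow]
      _ ≤ s ^ 2 * (Q * (32 * (128 * Λ) * (22 * Λ * P) * (129 * Λ * Cv * σ ^ 2 * H / s ^ 2) +
            x * (K * N) * y ^ 2)) := by
          refine mul_le_mul_of_nonneg_left (hcs.trans (mul_le_mul_of_nonneg_left
            (hsub.trans (hm.trans ?_)) hQ0)) (sq_nonneg _)
          gcongr
      _ = (4096 * 22 * 129 * Λ ^ 3 * Cv * (σ ^ 2 * P * Q)) * H +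
            s ^ 2 * (x * (K * N)) * (Q * y ^ 2) := by field_simp; ring
      _ ≤ (4096 * 22 * 129 * Λ ^ 3 * Cv * (σ ^ 2 * P * Q)) * H +
            (22 * Λ) ^ 2 * (S ^ 2 * K ^ 2 * P) * (Q * y ^ 2) := by gcongr
      _ = _ := by simp only [mul_pow, hrt]; ring
  refine (self_HV (by positivity) (by positivity) key).trans ?_
  have e2 : 0 ≤ 4096 * 22 * 129 * Λ ^ 3 * Cv * (S * K * √(P * Q) * y) := by positivity
  have e3 : 0 ≤ 22 * Λ * (σ ^ 2 * P * Q) := by positivity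
  linarith

end Pool.Agent.MP_c853c5_nt.DV
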