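import Pool.Agent.MP_c853c5_nt.DV.Defs
import Pool.Agent.MP_c853c5_nt.DU.Win
import Pool.Agent.MP_c853c5_nt.DT.L3G

/-!
Polygons on which the dispersion bound with the new mean square applies.
-/

set_option autoImplicit false

open Finset

namespace Pool.Agent.MP_c853c5_nt.DV

open Pool.Agent.MP_c853c5_nt.S Pool.Agent.MP_c853c5_nt.REG Pool.Agent.MP_c853c5_nt.Y
open Pool.Agent.MP_c853c5_nt.DT (impL impL_ok)

/-- the system with the new mean square -/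
def sysF : Sys := DU.sysE.or2 ⟨E1pt, E12pt, E4pt⟩

theorem sysF_ok (h : DU.sysE.OK) (h4 : E4D) : sysF.OK := h.or2 h4

/-- the rows that matter -/
lemma disp_of {τ a₀ a₂ a₁ η : ℝ} {m : ℕ} (hm : 1 ≤ m) (t1 : 2 / 5 ≤ τ) (t2 : τ ≤ 1 / 2)
    (hη : η = 1 / 10000) (hs : a₀ + a₂ + a₁ = 1)
    (g0 : 2 * (m + 1) * (τ - a₀) + min (τ / 2) (τ / 6 + (a₁ - a₂) / 2) + η ≤ a₁ - a₂ ∨
      (m + 1) * (τ - a₀) + (m + 3) * a₂ + η ≤ (2 * m + 3) * (a₁ + a₂ - τ))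
    (g1 : (m + 1) * (τ - a₀) + η ≤ m * (a₁ + a₂ - τ)) (g2 : 2 * m * a₂ + η ≤ a₀)
    (g3 : τ - a₀ + 1 / 400 + η ≤ a₂) (g4 : (m + 1) * (τ - a₀) + η ≤ m * a₂) (g5 : a₂ ≤ 1 / 10)
    (g6 : a₁ ≤ 1 / 2) (g9 : τ - a₁ + 3 / 1000 + η ≤ a₂) (g10 : 3 / 1000 + η ≤ a₂) :
    DU.DispOK τ η (m + 1) a₀ a₂ a₁ := by
  have m1 : (1 : ℝ) ≤ m := by exact_mod_cast hm
  have e1 : 1 * a₂ ≤ m * a₂ := mul_le_mul_of_nonneg_right m1 (by linarith)
  have e2 : 1 * (a₁ + a₂ - τ) ≤ m * (a₁ + a₂ - τ) := mul_le_mul_of_nonneg_right m1 (by linarith)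
  have e3 := min_le_left (τ / 2) (τ / 6 + (a₁ - a₂) / 2)
  have e4 : τ ≤ a₁ → (2 * m + 3) * a₂ ≤ (2 * m + 3) * (a₁ + a₂ - τ) := fun h =>
    mul_le_mul_of_nonneg_left (by linarith) (by linarith)
  unfold DU.DispOK
  push_cast
  rcases le_total τ a₀ with c | c
  · rw [max_eq_left (by linarith)]
    refine ⟨?_, by linarith, by linarith, by linarith, by linarith, by linarith, by linarith,
      by linarith⟩
    rcases le_total τ a₁ with d | d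
    · exact Or.inr (by linarith [e4 d])
    · exact Or.inl ⟨by linarith, by linarith⟩
  · rw [max_eq_right (by linarith)]
    refine ⟨?_, by linarith, by linarith, by linarith, by linarith, by linarith, by linarith,
      by linarith⟩
    rcases le_total τ a₁ with d | d
    · exact Or.inr (by linarith [e4 d])
    · exact g0.imp (fun g => ⟨by linarith, g⟩) fun g => by linarith

lemma vok_of {τ a₂ a₁ η : ℝ} {n : ℕ} (hn : 1 ≤ n) (t1 : 2 / 5 ≤ τ) (hη : η = 1 / 10000)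
    (g5 : a₂ ≤ 1 / 10) (g6 : a₁ ≤ 1 / 2) (g7 : (n + 1) * (τ - a₁) + η ≤ n * a₂)
    (g8 : 2 * n * a₂ + η ≤ a₁) (g9 : τ - a₁ + 3 / 1000 + η ≤ a₂) (g10 : 3 / 1000 + η ≤ a₂) :
    VOK τ η (n + 1) a₂ a₁ := by
  have m1 : (1 : ℝ) ≤ n := by exact_mod_cast hn
  have e1 : 1 * a₂ ≤ n * a₂ := mul_le_mul_of_nonneg_right m1 (by linarith)
  unfold VOK
  push_cast
  rcases le_total τ a₁ with c | c
  · rw [max_eq_left (by linarith)]
    exact ⟨t1, g5, g6, by linarith, by linarith, by linarith⟩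
  · rw [max_eq_right (by linarith)]
    exact ⟨t1, g5, g6, by linarith, by linarith, by linarith⟩

/-- the size conditions for the powers `m + 1` and `n + 1`; `d` holds the multipliers -/
def rowsL (tn m n : ℕ) (P : Poly) (d : List (ℕ × ℕ × List ℕ)) : Bool :=
  (impL 3 P 2 (4 * m + 8) (4 * m + 4) ((4 * m + 5) * tn + 200) ((4 * m + 6) * SC)
      (d.getD 0 (0, 0, [])) ||
    impL 3 P 3 (12 * m + 18) (12 * m + 12) ((12 * m + 13) * tn + 600) ((12 * m + 15) * SC)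
      (d.getD 0 (0, 0, [])) ||
    impL 3 P (m + 2) (m + 3) 0 ((3 * m + 4) * tn + 100) ((2 * m + 3) * SC)
      (d.getD 0 (0, 0, []))) &&
  impL 3 P 0 1 1 ((2 * m + 2) * tn + 100) ((m + 1) * SC + tn) (d.getD 1 (0, 0, [])) &&
  impL 3 P 0 (2 * m + 1) 1 100 SC (d.getD 2 (0, 0, [])) &&
  impL 3 P 0 0 1 (tn + 2600) SC (d.getD 3 (0, 0, [])) &&
  impL 3 P 0 1 (m + 1) ((m + 1) * tn + 100) ((m + 1) * SC) (d.getD 4 (0, 0, [])) &&
  impL 3 P 0 1 0 0 100000 (d.getD 5 (0, 0, [])) &&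
  impL 3 P 0 0 1 0 500000 (d.getD 6 (0, 0, [])) &&
  impL 3 P (n + 1) 1 0 ((n + 1) * tn + 100) ((n + 1) * SC) (d.getD 7 (0, 0, [])) &&
  impL 3 P 1 (2 * n + 1) 0 100 SC (d.getD 8 (0, 0, [])) &&
  impL 3 P 1 0 0 (tn + 3100) SC (d.getD 9 (0, 0, [])) &&
  impL 3 P 1 0 1 3100 SC (d.getD 10 (0, 0, []))

lemma rowsL_ok {tn m n : ℕ} {P : Poly} {d : List (ℕ × ℕ × List ℕ)} (hm : 1 ≤ m) (hn : 1 ≤ n)
    (t1 : 400000 ≤ tn) (t2 : tn ≤ 500000) (h : rowsL tn m n P d = true) {b : Fin 3 → ℝ}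
    (hb : ∀ j, 0 ≤ b j) (hP : Mem P b) (hs : ∑ j, b j = 1) :
    DU.DispOK ((tn : ℝ) / SC) (1 / 10000) (m + 1) (b 0) (b 1) (1 - b 0 - b 1) ∧
      VOK ((tn : ℝ) / SC) (1 / 10000) (n + 1) (b 1) (1 - b 0 - b 1) := by
  simp only [rowsL, Bool.and_eq_true, Bool.or_eq_true] at h
  obtain ⟨⟨⟨⟨⟨⟨⟨⟨⟨⟨h0, h1⟩, h2⟩, h3⟩, h4⟩, h5⟩, h6⟩, h7⟩, h8⟩, h9⟩, h10⟩ := h
  have k : ∀ {x u y e₁ e₂ : ℕ} {d : ℕ × ℕ × List ℕ}, impL 3 P x u y e₁ e₂ d = true →
      x * b 0 + u * b 1 + y * (1 - b 0 - b 1) + (e₁ : ℝ) / SC ≤ (e₂ : ℝ) / SC :=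
    fun h => impL_ok (k := 1) h hb hP hs
  have g0 := h0.imp (Or.imp k k) k
  have g1 := k h1
  have g2 := k h2
  have g3 := k h3
  have g4 := k h4
  have g5 := k h5
  have g6 := k h6
  have g7 := k h7
  have g8 := k h8
  have g9 := k h9
  have g10 := k h10
  have e : (SC : ℝ) = 1000000 := by norm_num [SC]
  have s1 : (400000 : ℝ) ≤ tn := by exact_mod_cast t1
  have s2 : (tn : ℝ) ≤ 500000 := by exact_mod_cast t2
  push_cast at g0 g1 g2 g3 g4 g5 g6 g7 g8 g9 g10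
  rw [e] at *
  refine ⟨disp_of hm (by linarith) (by linarith) rfl (by ring) ?_ (by linarith) (by linarith)
    (by linarith) (by linarith) (by linarith) (by linarith) (by linarith) (by linarith),
    vok_of hn (by linarith) rfl (by linarith) (by linarith) (by linarith) (by linarith)
      (by linarith) (by linarith)⟩
  have q1 := min_le_left ((tn : ℝ) / 1000000 / 2)
    ((tn : ℝ) / 1000000 / 6 + (1 - b 0 - b 1 - b 1) / 2)
  have q2 := min_le_right ((tn : ℝ) / 1000000 / 2)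
    ((tn : ℝ) / 1000000 / 6 + (1 - b 0 - b 1 - b 1) / 2)
  rcases g0 with (g | g) | g
  · exact Or.inl (by linarith)
  · exact Or.inl (by linarith)
  · exact Or.inr (by linarith)

/-- on the polygon the slot `0` is the first group and the slot `1` is the prime -/
def Good4 (tn k : ℕ) (P : Poly) : Prop :=
  ∀ (ι : Type) [Fintype ι] (w : ι → ℝ) (g : ι → ℕ) (i : ι) (pr : ι → Prop), (∀ j, g j < k) →
    (∀ j, 0 ≤ w j) → ∑ j, w j = 1 → (∀ j, g j = 1 ↔ j = i) → pr i →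
    (∀ x ∈ P, ∑ j, (x.1.getD (g j) 0 : ℝ) * w j ≤ (x.2 : ℝ) / SC) →
    E4pt ((tn : ℝ) / SC) (1 / 10000) 64 pr w

def chk4 (tn k m n : ℕ) (P : Poly) (d : List (ℕ × ℕ × List ℕ)) : Bool :=
  Nat.beq k 3 && Nat.ble 1 m && Nat.ble m 63 && Nat.ble 1 n && Nat.ble n 63 &&
    Nat.ble 400000 tn && Nat.ble tn 500000 && rowsL tn m n ((List.replicate 3 1, SC) :: P) d

theorem chk4_ok {tn k m n : ℕ} {P : Poly} {d : List (ℕ × ℕ × List ℕ)}
    (h : chk4 tn k m n P d = true) : Good4 tn k P := by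
  classical
  simp only [chk4, Bool.and_eq_true, Nat.ble_eq, Nat.beq_eq] at h
  obtain ⟨⟨⟨⟨⟨⟨⟨rfl, h1⟩, h2⟩, h3⟩, h4⟩, h5⟩, h6⟩, h7⟩ := h
  intro ι _ w g i pr hg hw hs hi hp hP
  set b : Fin 3 → ℝ := fun n => asum g w n with hb
  have key : ∀ c : List ℕ, dot c b = ∑ j, (c.getD (g j) 0 : ℝ) * w j := fun c => by
    have := sum_asum hg w fun n => (c.getD n 0 : ℝ)
    rw [dot, Fin.sum_univ_eq_sum_range (fun n => (c.getD n 0 : ℝ) * asum g w n), this]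
  have b0 : ∀ j, 0 ≤ b j := fun j => asum_nonneg g hw _
  have bs : ∑ j, b j = 1 := by
    have := sum_asum hg w fun _ => 1
    simp only [one_mul] at this
    rw [Fin.sum_univ_eq_sum_range (fun n => asum g w n), this, hs]
  have m1 : Mem ((List.replicate 3 1, SC) :: P) b := by
    refine List.forall_mem_cons.2 ⟨?_, fun x hx => by rw [key]; exact hP x hx⟩
    rw [div_self SC_pos.ne', ← bs]
    refine le_of_eq (sum_congr rfl fun j _ => ?_)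
    fin_cases j <;> simp
  obtain ⟨hD, hV⟩ := rowsL_ok h1 h3 h5 h6 h7 b0 m1 bs
  have e0 : ∑ l ∈ univ.filter (fun j => g j = 0), w l = b 0 := rfl
  have e1 : w i = b 1 := by
    have : univ.filter (fun j => g j = 1) = {i} := by
      ext j
      simp [hi]
    show _ = asum g w 1
    rw [asum, this, sum_singleton]
  have iA : i ∈ univ \ univ.filter (fun j => g j = 0) := by simp [(hi i).2 rfl]
  have e2 : ∑ l ∈ univ \ univ.filter (fun j => g j = 0), w l = 1 - b 0 := by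
    have := sum_sdiff (subset_univ (univ.filter fun j => g j = 0)) (f := w)
    linarith
  have e3 := sum_erase_add _ w iA
  have e4 : ∑ l ∈ (univ \ univ.filter fun j => g j = 0).erase i, w l = 1 - b 0 - b 1 := by
    linarith
  refine ⟨univ.filter fun j => g j = 0, i, m + 1, n + 1, by omega, by omega, by omega, by omega,
    (mem_sdiff.1 iA).2, hp, ?_, ?_⟩
  · convert hD using 1
  · convert hV using 1

end Pool.Agent.MP_c853c5_nt.DV

namespace Pool.Agent.MP_c853c5_nt.X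

open Pool.Agent.MP_c853c5_nt.S Pool.Agent.MP_c853c5_nt.REG Pool.Agent.MP_c853c5_nt.Y
open Pool.Agent.MP_c853c5_nt.DV

/-- the group `0` is the first group, the group `1` is the prime -/
def PP.Good4 (tn : ℕ) (x : PP) : Prop := DV.Good4 tn x.k x.rows

theorem PP.of_chk4 {tn : ℕ} {x : PP} (m n : ℕ) (d : List (ℕ × ℕ × List ℕ))
    (h : chk4 tn x.k m n x.rows d = true) : x.Good4 tn := chk4_ok h

variable {S : NS} {A : ℕ → Finset ℕ} {t : ℝ} {sg : Bool} {tn : ℕ}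

lemma leaf4_pr (R : CutStmt2) (h1 : 1 / 3 ≤ t) (h2 : t < (tn : ℝ) / SC)
    (h3 : (tn : ℝ) / SC ≤ 1 / 2) {x : PP} {G : ℕ} (hL : Leaf2G sysF) (hx : x.Good4 tn)
    (hI : Inv S A) (hG : g3 S G x.k = true) :
    H sg t S.k S.kind (fun a => ∀ y ∈ x.P, Pr S.k G y a) 0 := by
  rw [g3, Nat.beq_eq] at hG
  obtain ⟨g1, -, g2⟩ := cnt3_ok _ _ _ _ hG.le
  obtain ⟨p, hp, hp0, g3⟩ := g2 hG
  refine xLeaf2G R hL h1 h2 h3 hI.pos hI.kv fun B a ha hb _ hc => ?_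
  refine ⟨1 / 10000, by norm_num, 64,
    fun w hw hs => Or.inr (hx _ w (fun j => d4 G j) ⟨p, hp⟩ _ (fun j => g1 j j.2)
      (fun j => (hw j).1) hs (fun j => (g3 j j.2).trans (by rw [Fin.ext_iff]))
      ((hc ⟨p, hp⟩).2.2.2 (kind_P hp0)) fun z hz => ?_)⟩
  obtain ⟨y, hy, rfl⟩ := List.mem_map.1 hz
  have := ha y hy (fun i => if h : i < S.k then w ⟨i, h⟩ else 0) (fun i hi => by
    rw [dif_pos hi]
    exact ⟨(hw _).1, (hc ⟨i, hi⟩).1.trans (hw _).2.1, (hw _).2.2.trans (hc ⟨i, hi⟩).2.1⟩)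
    (by simpa only [sum_range, Fin.is_lt, dif_pos, Fin.eta] using hs)
  simp only [sum_range, Fin.is_lt, dif_pos, Fin.eta, wt] at this
  refine le_trans (le_of_eq (sum_congr rfl fun j _ => ?_)) this
  rw [List.getD_eq_getElem _ _ (by simpa using g1 j j.2)]
  simp

/-- one entry of a table -/
theorem gd4_one (R : CutStmt2) (h1 : 1 / 3 ≤ t) (h2 : t < (tn : ℝ) / SC) (h4 : 2 * tn ≤ SC)
    (hL : Leaf2G sysF) {x : PP} (hx : x.Good4 tn) : PP.Gd t g3 x := by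
  have : (2 : ℝ) * tn ≤ SC := by exact_mod_cast h4
  refine fun sg S A G hI c => ⟨?_,
    leaf4_pr R h1 h2 ((div_le_iff₀ SC_pos).2 (by linarith)) hL hx hI c⟩
  rw [g3, Nat.beq_eq] at c
  exact (cnt3_ok _ _ _ _ c.le).1

theorem gd4_ok {PL : BT PP} (R : CutStmt2) (h1 : 1 / 3 ≤ t) (h2 : t < (tn : ℝ) / SC)
    (h4 : 2 * tn ≤ SC) (hL : Leaf2G sysF) (hx : PL.All (PP.Good4 tn)) : PL.All (PP.Gd t g3) :=
  hx.imp fun _ hx => gd4_one R h1 h2 h4 hL hx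

theorem t4P_ok {PL : BT PP} (R : CutStmt2) (h1 : 1 / 3 ≤ t) (h2 : t < (tn : ℝ) / SC)
    (h4 : 2 * tn ≤ SC) (hL : Leaf2G sysF) (hx : PL.All (PP.Good4 tn)) : Prok t (tabP g3 PL) :=
  tabP_ok fun sg S A i G hI c => ((gd4_ok R h1 h2 h4 hL hx).find i sg S A G hI c).2

end Pool.Agent.MP_c853c5_nt.X
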