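import Pool.Agent.MP_c853c5_nt.DV.Defs
import Pool.Agent.MP_c853c5_nt.DS.VTr

/-!
The mean value theorem for Dirichlet polynomials, by a Gaussian majorant.
-/

set_option autoImplicit false

open Finset Filter Real MeasureTheory

namespace Pool.Agent.MP_c853c5_nt.DV

lemma geo_MvV (S : Finset ℕ) (g : ℕ → ℕ) (hg : Set.InjOn g S) :
    ∑ m ∈ S, (1 / 2 : ℝ) ^ g m ≤ 2 := by
  classical
  rw [← Finset.sum_image (f := fun k : ℕ => (1 / 2 : ℝ) ^ k) hg]
  calc ∑ k ∈ S.image g, (1 / 2 : ℝ) ^ k ≤ ∑' k : ℕ, (1 / 2 : ℝ) ^ k :=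
        summable_geometric_two.sum_le_tsum _ fun k _ => by positivity
    _ = 2 := tsum_geometric_two

lemma log_MvV {a b U : ℝ} (ha : 0 < a) (hab : a ≤ b) (hb : b ≤ U) :
    b - a ≤ (Real.log b - Real.log a) * U := by
  have hb0 : 0 < b := lt_of_lt_of_le ha hab
  have h1 : Real.log (a / b) ≤ a / b - 1 := Real.log_le_sub_one_of_pos (by positivity)
  rw [Real.log_div ha.ne' hb0.ne'] at h1
  have h2 : 0 ≤ Real.log b - Real.log a := sub_nonneg.2 (Real.log_le_log ha hab)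
  have h3 : b - a ≤ (Real.log b - Real.log a) * b := by
    have : a / b * b = a := div_mul_cancel₀ a hb0.ne'
    nlinarith
  exact h3.trans (mul_le_mul_of_nonneg_left hb h2)

lemma gg_MvV {U z : ℝ} (hU : 0 < U) (k : ℕ) (h : (k : ℝ) ^ 2 ≤ z ^ 2 * U ^ 2) :
    Z.gg U⁻¹ z ≤ U * (1 / 2 : ℝ) ^ k := by
  unfold Z.gg
  rw [inv_inv]
  refine mul_le_mul_of_nonneg_left ?_ hU.le
  have e : Real.pi * z ^ 2 / U⁻¹ ^ 2 = Real.pi * (z ^ 2 * U ^ 2) := by
    field_simp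
  have hk : (k : ℝ) ≤ (k : ℝ) ^ 2 := by exact_mod_cast Nat.le_self_pow two_ne_zero k
  have hk0 : (0 : ℝ) ≤ k := Nat.cast_nonneg k
  have h1 : (k : ℝ) ≤ Real.pi * (z ^ 2 * U ^ 2) := by
    nlinarith [Real.pi_gt_three]
  have h2 : Real.exp (-1) ≤ 1 / 2 := by
    rw [Real.exp_neg, one_div]
    exact inv_anti₀ (by norm_num) (by linarith [Real.add_one_le_exp (1 : ℝ)])
  rw [e]
  calc Real.exp (-(Real.pi * (z ^ 2 * U ^ 2))) ≤ Real.exp (k * (-1)) :=
        Real.exp_le_exp.2 (by linarith)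
    _ = Real.exp (-1) ^ k := Real.exp_nat_mul _ _
    _ ≤ (1 / 2) ^ k := pow_le_pow_left₀ (Real.exp_pos _).le h2 k

lemma gg_neg_MvV (d z : ℝ) : Z.gg d (-z) = Z.gg d z := by
  unfold Z.gg
  rw [neg_sq]

lemma pair_MvV {U : ℝ} {Y n m : ℕ} (hY : (Y : ℝ) ≤ U) (hn : 1 ≤ n) (hnm : n ≤ m) (hm : m ≤ Y) :
    Z.gg U⁻¹ (Real.log m - Real.log n) ≤ U * (1 / 2 : ℝ) ^ (m - n) := by
  have hn0 : (0 : ℝ) < n := by exact_mod_cast hn
  have hnm' : (n : ℝ) ≤ m := by exact_mod_cast hnm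
  have hm' : (m : ℝ) ≤ U := le_trans (by exact_mod_cast hm) hY
  have hU : 0 < U := by linarith
  refine gg_MvV hU _ ?_
  rw [Nat.cast_sub hnm, ← mul_pow]
  exact pow_le_pow_left₀ (by linarith) (log_MvV hn0 hnm' hm') 2

lemma row_MvV {U : ℝ} {Y n : ℕ} {R : Finset ℕ} (hY : (Y : ℝ) ≤ U) (hR : R ⊆ Icc 1 Y)
    (hn : n ∈ R) : ∑ m ∈ R, Z.gg U⁻¹ (Real.log m - Real.log n) ≤ 4 * U := by
  have hn' := Finset.mem_Icc.1 (hR hn)
  have hU : 0 ≤ U := le_trans (Nat.cast_nonneg Y) hY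
  rw [← Finset.sum_filter_add_sum_filter_not R (fun m => n ≤ m)]
  have h1 : ∑ m ∈ R.filter (fun m => n ≤ m), Z.gg U⁻¹ (Real.log m - Real.log n) ≤ U * 2 := by
    calc _ ≤ ∑ m ∈ R.filter (fun m => n ≤ m), U * (1 / 2 : ℝ) ^ (m - n) := by
          refine Finset.sum_le_sum fun m hm => ?_
          have hm' := Finset.mem_filter.1 hm
          exact pair_MvV hY hn'.1 hm'.2 (Finset.mem_Icc.1 (hR hm'.1)).2
      _ ≤ U * 2 := by
          rw [← Finset.mul_sum]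
          refine mul_le_mul_of_nonneg_left (geo_MvV _ (fun m => m - n) ?_) hU
          intro a ha b hb hab
          have ha' := (Finset.mem_filter.1 (Finset.mem_coe.1 ha)).2
          have hb' := (Finset.mem_filter.1 (Finset.mem_coe.1 hb)).2
          simp only at hab
          omega
  have h2 : ∑ m ∈ R.filter (fun m => ¬ n ≤ m), Z.gg U⁻¹ (Real.log m - Real.log n) ≤ U * 2 := by
    calc _ ≤ ∑ m ∈ R.filter (fun m => ¬ n ≤ m), U * (1 / 2 : ℝ) ^ (n - m) := by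
          refine Finset.sum_le_sum fun m hm => ?_
          have hm' := Finset.mem_filter.1 hm
          rw [← gg_neg_MvV, neg_sub]
          exact pair_MvV hY (Finset.mem_Icc.1 (hR hm'.1)).1 (le_of_not_ge hm'.2) hn'.2
      _ ≤ U * 2 := by
          rw [← Finset.mul_sum]
          refine mul_le_mul_of_nonneg_left (geo_MvV _ (fun m => n - m) ?_) hU
          intro a ha b hb hab
          have ha' := (Finset.mem_filter.1 (Finset.mem_coe.1 ha)).2
          have hb' := (Finset.mem_filter.1 (Finset.mem_coe.1 hb)).2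
          simp only at hab
          omega
  linarith

lemma form_MvV {U : ℝ} {Y : ℕ} {R : Finset ℕ} (c : ℕ → ℝ) (hU : 0 < U) (hY : (Y : ℝ) ≤ U)
    (hR : R ⊆ Icc 1 Y) :
    ∑ i ∈ R ×ˢ R, c i.1 * c i.2 * Z.gg U⁻¹ (Real.log i.2 - Real.log i.1) ≤
      4 * U * ∑ n ∈ R, c n ^ 2 := by
  have h0 : ∀ z, 0 ≤ Z.gg U⁻¹ z := fun z => by unfold Z.gg; positivity
  have hrow : ∑ n ∈ R, ∑ m ∈ R, c n ^ 2 * Z.gg U⁻¹ (Real.log m - Real.log n) ≤
      4 * U * ∑ n ∈ R, c n ^ 2 := by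
    rw [Finset.mul_sum]
    refine Finset.sum_le_sum fun n hn => ?_
    rw [← Finset.mul_sum, mul_comm (4 * U)]
    exact mul_le_mul_of_nonneg_left (row_MvV hY hR hn) (sq_nonneg _)
  have hcol : ∑ n ∈ R, ∑ m ∈ R, c m ^ 2 * Z.gg U⁻¹ (Real.log m - Real.log n) ≤
      4 * U * ∑ n ∈ R, c n ^ 2 := by
    rw [Finset.sum_comm]
    refine le_trans (le_of_eq ?_) hrow
    refine Finset.sum_congr rfl fun n _ => Finset.sum_congr rfl fun m _ => ?_
    rw [← gg_neg_MvV, neg_sub]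
  have h : ∑ i ∈ R ×ˢ R, c i.1 * c i.2 * Z.gg U⁻¹ (Real.log i.2 - Real.log i.1) ≤
      (∑ n ∈ R, ∑ m ∈ R, c n ^ 2 * Z.gg U⁻¹ (Real.log m - Real.log n) +
        ∑ n ∈ R, ∑ m ∈ R, c m ^ 2 * Z.gg U⁻¹ (Real.log m - Real.log n)) / 2 := by
    rw [Finset.sum_product, ← Finset.sum_add_distrib, Finset.sum_div]
    refine Finset.sum_le_sum fun n _ => ?_
    rw [← Finset.sum_add_distrib, Finset.sum_div]
    refine Finset.sum_le_sum fun m _ => ?_
    have := mul_nonneg (sq_nonneg (c n - c m)) (h0 (Real.log m - Real.log n))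
    nlinarith
  linarith

lemma full_MvV {d : ℝ} (hd : 0 < d) (R : Finset ℕ) (c : ℕ → ℝ) :
    Integrable (fun t => ‖E.FP R c t‖ ^ 2 * E.EE_Tr d t) ∧
      ∫ t, ‖E.FP R c t‖ ^ 2 * E.EE_Tr d t =
        2 * π * ∑ i ∈ R ×ˢ R, c i.1 * c i.2 * Z.gg d (Real.log i.2 - Real.log i.1) := by
  have e : ∀ t : ℝ, ((‖E.FP R c t‖ ^ 2 * E.EE_Tr d t : ℝ) : ℂ) =
      ∑ i ∈ R ×ˢ R, ((c i.1 * c i.2 : ℝ) : ℂ) * (Complex.exp (Complex.I * (t : ℂ) *
        ((Real.log i.2 - Real.log i.1 : ℝ) : ℂ)) * (E.EE_Tr d t : ℂ)) := by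
    intro t
    have := DS.sq_VTr R c (fun n => Real.log n) t
    rw [Complex.ofReal_mul]
    refine (congrArg (· * (E.EE_Tr d t : ℂ)) this).trans ?_
    simp only [Finset.sum_mul, mul_assoc]
  have hi : ∀ i ∈ R ×ˢ R, Integrable fun t : ℝ => ((c i.1 * c i.2 : ℝ) : ℂ) *
      (Complex.exp (Complex.I * (t : ℂ) * ((Real.log i.2 - Real.log i.1 : ℝ) : ℂ)) *
        (E.EE_Tr d t : ℂ)) := fun i _ => (E.int_Tr hd _).const_mul _
  constructor
  · have h := (integrable_finsetSum _ hi).re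
    refine h.congr (Filter.Eventually.of_forall fun t => ?_)
    simp only [← e t]
    exact Complex.ofReal_re _
  · apply Complex.ofReal_injective
    rw [← integral_complex_ofReal]
    simp only [e]
    rw [integral_finsetSum _ hi]
    push_cast
    rw [Finset.mul_sum]
    refine Finset.sum_congr rfl fun i _ => ?_
    have := E.val_Tr hd (Real.log i.2 - Real.log i.1)
    rw [gg_neg_MvV] at this
    push_cast at this
    rw [integral_const_mul, this]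
    ring

theorem mv_stmt : MvStmt := by
  refine ⟨16 * π, by positivity, fun R c Y T₀ T h0 hT hR => ?_⟩
  have hS : 0 ≤ ∑ n ∈ R, c n ^ 2 := Finset.sum_nonneg fun n _ => sq_nonneg _
  rcases Nat.eq_zero_or_pos Y with rfl | hY
  · have : R = ∅ := by simpa using hR
    subst this
    simp [E.FP]
  have hY' : (1 : ℝ) ≤ Y := by exact_mod_cast hY
  have hT0 : 0 ≤ T := h0.trans hT
  obtain ⟨U, hU⟩ : ∃ U : ℝ, U = T + Y := ⟨_, rfl⟩
  have hU0 : 0 < U := by linarith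
  obtain ⟨hi, hv⟩ := full_MvV (inv_pos.2 hU0) R c
  have hc : Continuous fun t => ‖E.FP R c t‖ ^ 2 := by
    unfold E.FP Pool.Agent.MP_2a1f0e_nt.GM.pw
    fun_prop
  have h1 : ∫ t in T₀..T, ‖E.FP R c t‖ ^ 2 ≤
      ∫ t in T₀..T, 2 * (‖E.FP R c t‖ ^ 2 * E.EE_Tr U⁻¹ t) := by
    refine intervalIntegral.integral_mono_on hT (hc.intervalIntegrable _ _)
      (hi.const_mul 2).intervalIntegrable fun t ht => ?_
    have h2 := E.EE_low_Tr U⁻¹ t
    have h3 : U⁻¹ ^ 2 / (4 * π) * t ^ 2 ≤ 1 / 2 := by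
      have ht0 : 0 ≤ t := h0.trans ht.1
      have htU : t ≤ U := by linarith [ht.2]
      have h4 : (t / U) ^ 2 ≤ 1 := pow_le_one₀ (by positivity) ((div_le_one hU0).2 htU)
      have e : U⁻¹ ^ 2 / (4 * π) * t ^ 2 = (t / U) ^ 2 / (4 * π) := by
        field_simp
      rw [e, div_le_iff₀ (by positivity)]
      nlinarith [Real.pi_gt_three]
    nlinarith [sq_nonneg ‖E.FP R c t‖]
  have h2 : ∫ t in T₀..T, 2 * (‖E.FP R c t‖ ^ 2 * E.EE_Tr U⁻¹ t) ≤
      ∫ t, 2 * (‖E.FP R c t‖ ^ 2 * E.EE_Tr U⁻¹ t) := by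
    rw [intervalIntegral.integral_of_le hT]
    refine setIntegral_le_integral (hi.const_mul 2) (Filter.Eventually.of_forall fun t => ?_)
    have := (E.EE_pos_Tr U⁻¹ t).le
    positivity
  rw [integral_const_mul, hv] at h2
  have h3 := form_MvV c hU0 (by linarith : (Y : ℝ) ≤ U) hR
  have h4 := mul_le_mul_of_nonneg_left h3 (by positivity : 0 ≤ 4 * π)
  rw [← hU]
  linarith

end Pool.Agent.MP_c853c5_nt.DV
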