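import Pool.Agent.MP_c853c5_nt.DV.Defs
import Pool.Agent.MP_c853c5_nt.DS.VTr
import Pool.Agent.MP_c853c5_nt.DS.Conv

/-! The Plancherel formula for sums of differences of Gaussians. -/

set_option autoImplicit false

namespace Pool.Agent.MP_c853c5_nt.DV

open Finset Filter Real MeasureTheory

/-- the integral of `g` is `2 π` times the integral of `f` -/
def R_PlanV (f : ℝ → ℝ) (g : ℝ → ℂ) : Prop :=
  Integrable f ∧ Integrable g ∧ ∫ t, g t = ((2 * π * ∫ v, f v : ℝ) : ℂ)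

lemma sub_PlanV {f f' : ℝ → ℝ} {g g' : ℝ → ℂ} (h : R_PlanV f g) (h' : R_PlanV f' g') :
    R_PlanV (fun v => f v - f' v) fun t => g t - g' t := by
  refine ⟨h.1.sub h'.1, h.2.1.sub h'.2.1, ?_⟩
  rw [integral_sub h.2.1 h'.2.1, integral_sub h.1 h'.1, h.2.2, h'.2.2, mul_sub, Complex.ofReal_sub]

lemma mul_PlanV {f : ℝ → ℝ} {g : ℝ → ℂ} (h : R_PlanV f g) (c : ℝ) :
    R_PlanV (fun v => c * f v) fun t => (c : ℂ) * g t := by
  refine ⟨h.1.const_mul c, h.2.1.const_mul _, ?_⟩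
  rw [integral_const_mul, integral_const_mul, h.2.2, mul_left_comm, Complex.ofReal_mul c]

lemma sum_PlanV {κ : Type} (s : Finset κ) {f : κ → ℝ → ℝ} {g : κ → ℝ → ℂ}
    (h : ∀ i, R_PlanV (f i) (g i)) :
    R_PlanV (fun v => ∑ i ∈ s, f i v) fun t => ∑ i ∈ s, g i t := by
  refine ⟨integrable_finsetSum _ fun i _ => (h i).1, integrable_finsetSum _ fun i _ => (h i).2.1,
    ?_⟩
  rw [integral_finsetSum _ fun i _ => (h i).1, integral_finsetSum _ fun i _ => (h i).2.1, mul_sum,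
    Complex.ofReal_sum]
  exact sum_congr rfl fun i _ => (h i).2.2

lemma pair_PlanV {s d : ℝ} (hs : 0 < s) (hd : 0 < d) (z z' : ℝ) :
    R_PlanV (fun v => Z.gg s (v - z) * Z.gg d (v - z')) fun t =>
      Complex.exp (Complex.I * (t : ℂ) * ((z' - z : ℝ) : ℂ)) *
        ((E.EE_Tr s t * E.EE_Tr d t : ℝ) : ℂ) := by
  obtain ⟨r, hr, e⟩ : ∃ r : ℝ, 0 < r ∧ r ^ 2 = s ^ 2 + d ^ 2 :=
    ⟨√(s ^ 2 + d ^ 2), by positivity, sq_sqrt (by positivity)⟩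
  have h1 : ∀ t, E.EE_Tr s t * E.EE_Tr d t = E.EE_Tr r t := fun t => by
    rw [E.EE_Tr, E.EE_Tr, E.EE_Tr, ← exp_add, e]
    congr 1
    ring
  have h2 : ∀ a y : ℝ, Z.gg a (-y) = Z.gg a y := fun a y => by rw [Z.gg, Z.gg, neg_sq]
  have h3 : ∀ v, Z.gg d (v - z') = Z.gg d (z' - z - (v - z)) := fun v => by
    rw [← h2]
    congr 1
    ring
  have h4 := DS.conv_Conv hs hd hr e (z' - z)
  simp only [R_PlanV, h1, h3]
  refine ⟨h4.1.comp_sub_right z, E.int_Tr hr _, ?_⟩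
  rw [E.val_Tr hr, h2, integral_sub_right_eq_self (fun y => Z.gg s y * Z.gg d (z' - z - y)), h4.2]
  push_cast
  rfl

lemma quad_PlanV {Δ Γ : ℝ} (hΔ : 0 < Δ) (hΓ : 0 < Γ) (z z' : ℝ) :
    R_PlanV (fun v => E.dg v Δ Γ z * E.dg v Δ Γ z') fun t =>
      Complex.exp (Complex.I * (t : ℂ) * ((z' - z : ℝ) : ℂ)) *
        (((E.EE_Tr Δ t - E.EE_Tr Γ t) ^ 2 : ℝ) : ℂ) := by
  have h := sub_PlanV (sub_PlanV (pair_PlanV hΔ hΔ z z') (pair_PlanV hΔ hΓ z z'))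
    (sub_PlanV (pair_PlanV hΓ hΔ z z') (pair_PlanV hΓ hΓ z z'))
  refine (congrArg₂ R_PlanV (funext fun v => ?_) (funext fun t => ?_)).mp h
  · rw [E.dg, E.dg]
    ring
  · push_cast
    ring

lemma low_PlanV {Δ Γ t : ℝ} (hΔ : 0 < Δ) (hΓ : 0 < Γ) (h1 : 4 / Γ ≤ t) (h2 : t ≤ 1 / Δ) :
    1 ≤ 4 * (E.EE_Tr Δ t - E.EE_Tr Γ t) ^ 2 := by
  have t0 : 0 ≤ t := le_trans (by positivity) h1
  rw [div_le_iff₀ hΓ] at h1
  rw [le_div_iff₀ hΔ] at h2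
  have a1 : Δ ^ 2 / (4 * π) * t ^ 2 ≤ 1 / 12 := by
    have : (t * Δ) ^ 2 ≤ 1 := pow_le_one₀ (by positivity) h2
    rw [div_mul_eq_mul_div, div_le_iff₀ (by positivity)]
    nlinarith [pi_gt_three]
  have a2 : E.EE_Tr Γ t ≤ exp (-1) := by
    refine exp_le_exp.2 ?_
    have : 4 ^ 2 ≤ (t * Γ) ^ 2 := pow_le_pow_left₀ (by norm_num) h1 2
    rw [neg_mul, neg_le_neg_iff, div_mul_eq_mul_div, le_div_iff₀ (by positivity)]
    nlinarith [pi_le_four]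
  have a3 : 1 / 2 ≤ E.EE_Tr Δ t - E.EE_Tr Γ t := by
    linarith [E.EE_low_Tr Δ t, exp_neg_one_lt_d9]
  nlinarith

theorem plan_stmt : PlanStmt := by
  intro Δ Γ T₀ T₁ D R b c hΔ hΓ hD hR h0 h01 h1
  have h := sum_PlanV ((D ×ˢ R) ×ˢ (D ×ˢ R)) fun i : (ℕ × ℕ) × ℕ × ℕ =>
    mul_PlanV (quad_PlanV hΔ hΓ (Real.log ((i.1.1 : ℝ) * i.1.2)) (Real.log ((i.2.1 : ℝ) * i.2.2)))
      (b i.1.1 * c i.1.2 * (b i.2.1 * c i.2.2))
  have k : R_PlanV (fun v => Dv Δ Γ D R b c v ^ 2) fun t =>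
      (((E.EE_Tr Δ t - E.EE_Tr Γ t) ^ 2 * (‖E.FP D b t‖ ^ 2 * ‖E.FP R c t‖ ^ 2) : ℝ) : ℂ) := by
    refine (congrArg₂ R_PlanV (funext fun v => ?_) (funext fun t => ?_)).mp h
    · rw [Dv, sq, sum_mul_sum, sum_product (D ×ˢ R)]
      exact sum_congr rfl fun u _ => sum_congr rfl fun w _ => by ring
    · rw [← mul_pow, ← norm_mul, DS.prod_VTr hD hR, Complex.ofReal_mul, DS.sq_VTr, mul_sum]
      exact sum_congr rfl fun i _ => by ring
  obtain ⟨-, k1, k2⟩ := k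
  beta_reduce at k2
  rw [integral_complex_ofReal, Complex.ofReal_inj] at k2
  have k3 : Integrable fun t =>
      (E.EE_Tr Δ t - E.EE_Tr Γ t) ^ 2 * (‖E.FP D b t‖ ^ 2 * ‖E.FP R c t‖ ^ 2) := k1.re
  have k4 : Continuous fun t => ‖E.FP D b t‖ ^ 2 * ‖E.FP R c t‖ ^ 2 := by
    unfold E.FP MP_2a1f0e_nt.GM.pw
    fun_prop
  refine (intervalIntegral.integral_mono_on h01 (k4.intervalIntegrable _ _)
    (k3.const_mul 4).intervalIntegrable fun t ht => ?_).trans ?_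
  · rw [← mul_assoc]
    exact le_mul_of_one_le_left (by positivity) (low_PlanV hΔ hΓ (h0.trans ht.1) (ht.2.trans h1))
  · rw [intervalIntegral.integral_of_le h01]
    refine (setIntegral_le_integral (k3.const_mul 4) (ae_of_all _ fun t => by positivity)).trans_eq
      ?_
    rw [integral_const_mul, k2]
    ring

end Pool.Agent.MP_c853c5_nt.DV
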