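import Pool.Agent.MP_c853c5_nt.DV.Defs
import Pool.Agent.MP_c853c5_nt.DU.Am

/-! The pointwise bound for the smoothed sum over products. -/

set_option autoImplicit false

open Finset Filter Real MeasureTheory

namespace Pool.Agent.MP_c853c5_nt.DV

lemma log1_SupV {a b Y : ℝ} (hb : 0 < b) (hab : b ≤ a) (ha : a ≤ Y) :
    (a - b) / Y ≤ Real.log a - Real.log b := by
  have ha0 : 0 < a := hb.trans_le hab
  have h1 := Real.log_le_sub_one_of_pos (div_pos hb ha0)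
  rw [Real.log_div hb.ne' ha0.ne'] at h1
  have h2 : (a - b) / Y ≤ (a - b) / a := div_le_div_of_nonneg_left (sub_nonneg.2 hab) ha0 ha
  rw [sub_div a b a, div_self ha0.ne'] at h2
  linarith

lemma log2_SupV {a b Y : ℝ} (ha0 : 0 < a) (hb0 : 0 < b) (ha : a ≤ Y) (hb : b ≤ Y) :
    |b - a| / Y ≤ |Real.log a - Real.log b| := by
  rcases le_total b a with h | h
  · rw [abs_sub_comm, abs_of_nonneg (sub_nonneg.2 h)]
    exact (log1_SupV hb0 h ha).trans (le_abs_self _)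
  · rw [abs_of_nonneg (sub_nonneg.2 h), abs_sub_comm]
    exact (log1_SupV ha0 h hb).trans (le_abs_self _)

lemma gsum_SupV {d : ℝ} (hd : 0 < d) {Y : ℕ} (hY : 1 ≤ Y) (v : ℝ) :
    ∑ n ∈ Icc 1 Y, Z.gg d (v - Real.log n) ≤ 2 / d + 4 * Y := by
  have hY0 : (0 : ℝ) < Y := by exact_mod_cast hY
  have hc : 0 < min (Real.exp v) Y := lt_min (Real.exp_pos v) hY0
  have h1 := DU.isum_AmU (A := (Y * d) ^ 2) (by positivity) hc.le (Icc 1 Y)
  rw [Real.sqrt_sq (by positivity)] at h1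
  have h2 : ∀ n ∈ Icc 1 Y, Real.exp (-(π * (v - Real.log n) ^ 2 / d ^ 2)) ≤
      Real.exp (-(π * ((n : ℝ) - min (Real.exp v) Y) ^ 2 / (Y * d) ^ 2)) := by
    intro n hn
    have hn0 : (0 : ℝ) < n := by exact_mod_cast (mem_Icc.1 hn).1
    have hnY : (n : ℝ) ≤ Y := by exact_mod_cast (mem_Icc.1 hn).2
    have h3 : |(n : ℝ) - min (Real.exp v) Y| / Y ≤ |v - Real.log n| := by
      refine (log2_SupV hc hn0 (min_le_right _ _) hnY).trans ?_
      rcases le_total (Real.exp v) Y with h | h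
      · rw [min_eq_left h, Real.log_exp]
      · rw [min_eq_right h, abs_of_nonneg (sub_nonneg.2 (Real.log_le_log hn0 hnY))]
        exact (sub_le_sub_right ((Real.log_le_iff_le_exp hY0).2 h) _).trans (le_abs_self _)
    have h4 := pow_le_pow_left₀ (by positivity) h3 2
    rw [div_pow, sq_abs, sq_abs] at h4
    refine Real.exp_le_exp.2 (neg_le_neg ?_)
    rw [mul_pow, ← div_div, mul_div_assoc π]
    exact div_le_div_of_nonneg_right (mul_le_mul_of_nonneg_left h4 pi_pos.le) (sq_nonneg d)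
  unfold Z.gg
  rw [← mul_sum]
  refine (mul_le_mul_of_nonneg_left ((sum_le_sum h2).trans h1) (inv_nonneg.2 hd.le)).trans_eq ?_
  field_simp

lemma card_SupV {n : ℕ} (hn : 1 ≤ n) : (n.primeFactors.card : ℝ) ≤ 2 * Real.log n := by
  have h1 : 2 ^ n.primeFactors.card ≤ n :=
    (pow_card_le_prod _ (fun p => p) 2 fun p hp => (Nat.prime_of_mem_primeFactors hp).two_le).trans
      (Nat.le_of_dvd hn (Nat.prod_primeFactors_dvd n))
  have h2 : (2 : ℝ) ^ n.primeFactors.card ≤ n := by exact_mod_cast h1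
  have h3 := Real.log_le_log (by positivity) h2
  rw [Real.log_pow] at h3
  have h4 : (0 : ℝ) ≤ n.primeFactors.card := Nat.cast_nonneg _
  nlinarith [Real.log_two_gt_d9]

lemma fib_SupV {D R : Finset ℕ} (hD : ∀ k ∈ D, k.Prime) {Y : ℕ}
    (hm : ∀ u ∈ D ×ˢ R, u.1 * u.2 ∈ Icc 1 Y) {f : ℕ → ℝ} (hf : ∀ n, 0 ≤ f n) :
    ∑ u ∈ D ×ˢ R, f (u.1 * u.2) ≤ 2 * Real.log Y * ∑ n ∈ Icc 1 Y, f n := by
  rw [← sum_fiberwise_of_maps_to hm, mul_sum]
  refine sum_le_sum fun n hn => ?_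
  have hn1 := (mem_Icc.1 hn).1
  rw [sum_congr rfl fun u hu => congrArg f (mem_filter.1 hu).2, sum_const, nsmul_eq_mul]
  refine mul_le_mul_of_nonneg_right ?_ (hf n)
  have h1 : ((D ×ˢ R).filter fun u => u.1 * u.2 = n).card ≤ n.primeFactors.card := by
    refine card_le_card_of_injOn Prod.fst (fun u hu => ?_) fun u hu w hw e => ?_
    · obtain ⟨h2, h3⟩ := mem_filter.1 hu
      exact Nat.mem_primeFactors.2 ⟨hD _ (mem_product.1 h2).1, ⟨u.2, h3.symm⟩, by omega⟩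
    · obtain ⟨h2, h3⟩ := mem_filter.1 hu
      have h4 := (mem_filter.1 hw).2
      refine Prod.ext e (Nat.eq_of_mul_eq_mul_left (hD _ (mem_product.1 h2).1).pos ?_)
      rw [h3, e, h4]
  have h5 : Real.log n ≤ Real.log Y :=
    Real.log_le_log (by exact_mod_cast hn1) (by exact_mod_cast (mem_Icc.1 hn).2)
  have h6 : (((D ×ˢ R).filter fun u => u.1 * u.2 = n).card : ℝ) ≤ n.primeFactors.card := by
    exact_mod_cast h1
  linarith [card_SupV hn1]

theorem sup_stmt : SupStmt := by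
  refine ⟨40, by norm_num, fun Δ Γ β v K P Λ D b c hΔ hΓ hK hP hΛ hD hb hc h1 => ?_⟩
  have hΓ0 := hΔ.trans_le hΓ
  have hβ : 0 ≤ β := (abs_nonneg _).trans (hc 0)
  have hY : 1 ≤ 2 * Λ * (K * P) := Nat.mul_pos (by omega) (Nat.mul_pos hK hP)
  have hm : ∀ u ∈ D ×ˢ Icc P (Λ * P), u.1 * u.2 ∈ Icc 1 (2 * Λ * (K * P)) := by
    intro u hu
    obtain ⟨h2, h3⟩ := mem_product.1 hu
    obtain ⟨h4, -, h5⟩ := hD _ h2
    refine mem_Icc.2 ⟨Nat.mul_pos h4.pos (hP.trans (mem_Icc.1 h3).1), ?_⟩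
    exact (Nat.mul_le_mul h5.le (mem_Icc.1 h3).2).trans_eq (by ring)
  have h2 := fib_SupV (fun k hk => (hD k hk).1) hm
    (f := fun n => Z.gg Δ (v - Real.log n) + Z.gg Γ (v - Real.log n))
    fun n => add_nonneg (DS.gg_nonneg_Conv hΔ _) (DS.gg_nonneg_Conv hΓ0 _)
  rw [sum_add_distrib (s := Icc 1 (2 * Λ * (K * P)))] at h2
  have h3 := gsum_SupV hΔ hY v
  have h4 := gsum_SupV hΓ0 hY v
  have h5 : 0 ≤ Real.log (2 * Λ * (K * P) : ℕ) := Real.log_natCast_nonneg _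
  have h6 : 2 / Γ ≤ 2 / Δ := div_le_div_of_nonneg_left (by norm_num) hΔ hΓ
  have hΛ1 : (1 : ℝ) ≤ Λ := by exact_mod_cast hΛ
  have h7 : 2 / Δ ≤ 2 * (Λ * (K * P)) := by
    rw [div_le_iff₀ hΔ]
    nlinarith
  have h8 : |Dv Δ Γ D (Icc P (Λ * P)) b c v| ≤ β * ∑ u ∈ D ×ˢ Icc P (Λ * P),
      (Z.gg Δ (v - Real.log (u.1 * u.2 : ℕ)) + Z.gg Γ (v - Real.log (u.1 * u.2 : ℕ))) := by
    rw [mul_sum]
    refine (abs_sum_le_sum_abs _ _).trans (sum_le_sum fun u _ => ?_)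
    rw [abs_mul, abs_mul, Nat.cast_mul]
    refine mul_le_mul ((mul_le_of_le_one_left (abs_nonneg _) (hb _)).trans (hc _)) ?_
      (abs_nonneg _) hβ
    refine (abs_sub _ _).trans_eq ?_
    rw [abs_of_nonneg (DS.gg_nonneg_Conv hΔ _), abs_of_nonneg (DS.gg_nonneg_Conv hΓ0 _)]
  have h9 := mul_le_mul_of_nonneg_left (add_le_add h3 h4) (mul_nonneg zero_le_two h5)
  refine h8.trans ((mul_le_mul_of_nonneg_left (h2.trans h9) hβ).trans ?_)
  push_cast at h5 ⊢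
  have h10 : 2 / Δ + 4 * (2 * (Λ : ℝ) * (K * P)) + (2 / Γ + 4 * (2 * Λ * (K * P))) ≤
      20 * (Λ * (K * P)) := by linarith
  refine (mul_le_mul_of_nonneg_left
    (mul_le_mul_of_nonneg_left h10 (mul_nonneg zero_le_two h5)) hβ).trans_eq ?_
  ring

end Pool.Agent.MP_c853c5_nt.DV
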