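import Pool.Agent.MP_c853c5_nt.DV.Defs
import Pool.Agent.MP_c853c5_nt.DS.Conv

set_option autoImplicit false

open Finset Filter Real MeasureTheory

namespace Pool.Agent.MP_c853c5_nt.DV

lemma gg_TailV {Δ e Γ y : ℝ} (h : 0 < Δ) (h1 : Δ ≤ e) (h2 : e ≤ Γ) (hy : 1 ≤ |y|) :
    Z.gg e y ≤ Δ⁻¹ * exp (-(π / Γ ^ 2)) := by
  have he := h.trans_le h1
  have h3 : 1 ≤ y ^ 2 := (one_le_sq_iff_one_le_abs y).2 hy
  have h4 : π / Γ ^ 2 ≤ π * y ^ 2 / e ^ 2 :=
    div_le_div₀ (by positivity) (le_mul_of_one_le_right pi_pos.le h3) (by positivity) (by gcongr)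
  rw [Z.gg]
  gcongr

theorem tail_stmt : TailStmt := by
  intro ι s α z Δ Γ p q hΔ hΓ hpq hz
  have hG := hΔ.trans_le hΓ
  have n1 := DS.gg_nonneg_Conv hΔ
  have n2 := DS.gg_nonneg_Conv hG
  have i1 := DS.gg_int_Conv hΔ
  have i2 := DS.gg_int_Conv hG
  set F : ℝ → ℝ := fun v => ∑ i ∈ s, α i * E.dg v Δ Γ (z i) with hF
  set H : ℝ → ℝ := fun v => ∑ i ∈ s, |α i| * (Z.gg Δ (v - z i) + Z.gg Γ (v - z i)) with hH
  set A := ∑ i ∈ s, |α i| with hA
  have A0 : 0 ≤ A := sum_nonneg fun _ _ => abs_nonneg _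
  have H0 : ∀ v, 0 ≤ H v := fun v => sum_nonneg fun _ _ =>
    mul_nonneg (abs_nonneg _) (add_nonneg (n1 _) (n2 _))
  have key : ∀ v c, (∀ i ∈ s, Z.gg Δ (v - z i) ≤ c ∧ Z.gg Γ (v - z i) ≤ c) →
      F v ^ 2 ≤ A * c * H v := fun v c h => by
    have h1 : |F v| ≤ A * c := by
      rw [hA, sum_mul]
      refine (abs_sum_le_sum_abs _ _).trans (sum_le_sum fun i hi => ?_)
      rw [abs_mul]
      exact mul_le_mul_of_nonneg_left
        (abs_sub_le_of_nonneg_of_le (n1 _) (h i hi).1 (n2 _) (h i hi).2) (abs_nonneg _)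
    have h2 : |F v| ≤ H v := by
      refine (abs_sum_le_sum_abs _ _).trans (sum_le_sum fun i _ => ?_)
      rw [abs_mul]
      refine mul_le_mul_of_nonneg_left ((abs_sub _ _).trans ?_) (abs_nonneg _)
      rw [abs_of_nonneg (n1 _), abs_of_nonneg (n2 _)]
    rw [← sq_abs, sq]
    exact mul_le_mul h1 h2 (abs_nonneg _) ((abs_nonneg _).trans h1)
  have j : ∀ i ∈ s, Integrable fun v => |α i| * (Z.gg Δ (v - z i) + Z.gg Γ (v - z i)) :=
    fun i _ => ((i1.1.comp_sub_right _).add (i2.1.comp_sub_right _)).const_mul _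
  have Hi : Integrable H := integrable_finsetSum _ j
  have HI : ∫ v, H v = 2 * A := by
    rw [hH, integral_finsetSum _ j, hA, mul_sum]
    refine sum_congr rfl fun i _ => ?_
    rw [integral_const_mul, integral_add (i1.1.comp_sub_right _) (i2.1.comp_sub_right _),
      integral_sub_right_eq_self (Z.gg Δ), integral_sub_right_eq_self (Z.gg Γ), i1.2, i2.2]
    ring
  have Fc : Continuous fun v => F v ^ 2 := by
    simp only [hF, E.dg, Z.gg]
    fun_prop
  have Fi : Integrable fun v => F v ^ 2 :=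
    (Hi.const_mul (A * Δ⁻¹)).mono' Fc.aestronglyMeasurable (.of_forall fun v => by
      rw [Real.norm_of_nonneg (sq_nonneg _)]
      exact key v _ fun i _ => ⟨DS.gg_le_Conv hΔ le_rfl _, DS.gg_le_Conv hΔ hΓ _⟩)
  set m := Δ⁻¹ * exp (-(π / Γ ^ 2)) with hm
  have m0 : 0 ≤ A * m := by positivity
  have h1 : ∫ v in (Set.Ioc (p - 1) (q + 1))ᶜ, F v ^ 2 ≤ ∫ v, A * m * H v := by
    refine (setIntegral_mono_on Fi.integrableOn (Hi.const_mul (A * m)).integrableOn
      measurableSet_Ioc.compl fun v hv => key v m fun i hi => ?_).trans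
      (setIntegral_le_integral (Hi.const_mul _) (.of_forall fun v => mul_nonneg m0 (H0 v)))
    have h2 : 1 ≤ |v - z i| := by
      have := hz i hi
      rw [Set.mem_compl_iff, Set.mem_Ioc, not_and_or, not_lt, not_le] at hv
      rw [le_abs]
      exact hv.elim (fun h => .inr (by linarith)) fun h => .inl (by linarith)
    exact ⟨gg_TailV hΔ le_rfl hΓ h2, gg_TailV hΔ hΓ le_rfl h2⟩
  rw [integral_const_mul, HI] at h1
  change ∫ v, F v ^ 2 ≤ (∫ v in (p - 1)..(q + 1), F v ^ 2) + _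
  rw [← integral_add_compl (s := Set.Ioc (p - 1) (q + 1)) measurableSet_Ioc Fi,
    intervalIntegral.integral_of_le (by linarith)]
  refine add_le_add le_rfl (h1.trans_eq ?_)
  rw [hm]
  ring

end Pool.Agent.MP_c853c5_nt.DV
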