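import Pool.Agent.MP_c853c5_nt.DV.Defs

/-!
The mean square from the exponents: the dual problem is taken at the scale `x ^ (6 / 5)`.
-/

set_option autoImplicit false

open Finset Filter Real MeasureTheory

namespace Pool.Agent.MP_c853c5_nt.DV

/-- the conditions of the dispersion bound at the new scale -/
lemma disp_VV {τ η a₂ a₁ z : ℝ} {r : ℕ} (hr : 2 ≤ r) (hτ : τ ≤ 1 / 2)
    (hz : 0 < z) (hrz : r * z = η / 8) (h : VOK τ η r a₂ a₁) :
    DU.DispOK (5 * (τ + z) / 6) (η / 4) r (5 * a₁ / 6) (5 * a₂ / 6)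
      (1 - 5 * (a₁ + a₂) / 6) := by
  obtain ⟨v1, v2, v3, v4, v5, v6⟩ := h
  have hr2 : (2 : ℝ) ≤ r := by exact_mod_cast hr
  have w0 : (0 : ℝ) ≤ max 0 (τ - a₁) := le_max_left _ _
  have w1 : τ - a₁ ≤ max 0 (τ - a₁) := le_max_right _ _
  generalize max 0 (τ - a₁) = w at *
  have hz2 : z ≤ η / 16 := by nlinarith
  have u1 : max 0 (5 * (τ + z) / 6 - 5 * a₁ / 6) ≤ 5 * (w + z) / 6 :=
    max_le (by linarith) (by linarith)
  unfold DU.DispOK
  generalize max 0 (5 * (τ + z) / 6 - 5 * a₁ / 6) = u at *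
  have e1 : r * u ≤ r * (5 * (w + z) / 6) := mul_le_mul_of_nonneg_left u1 (by linarith)
  have e2 : (2 * r + 1) * (5 * a₂ / 6) ≤
      (2 * r + 1) * (1 - 5 * (a₁ + a₂) / 6 + 5 * a₂ / 6 - 5 * (τ + z) / 6) :=
    mul_le_mul_of_nonneg_left (by linarith) (by linarith)
  have e3 : (r - 1) * (5 * a₂ / 6) ≤
      (r - 1) * (1 - 5 * (a₁ + a₂) / 6 + 5 * a₂ / 6 - 5 * (τ + z) / 6) :=
    mul_le_mul_of_nonneg_left (by linarith) (by linarith)
  exact ⟨Or.inr (by linarith), by linarith, by linarith, by linarith, by linarith, by linarith,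
    by linarith, by linarith⟩

/-- the final bound -/
lemma fin_VV {C L K P S E : ℝ} {A C₀ : ℕ} (hC : 0 < C) (hL : 1 ≤ L) (hCL : 2 * C ≤ L)
    (hP : 0 ≤ P) (hS : S ≤ P * L ^ C₀) (hE : 2 * C * L ^ A * E ≤ 1) :
    C * ((K / L ^ (A + C₀ + 1)) ^ 2 * P * S + (K * P) ^ 2 * E) ≤ (K * P) ^ 2 / L ^ A := by
  have hL0 : 0 < L := by linarith
  have a1 : (K / L ^ (A + C₀ + 1)) ^ 2 * P * S ≤ (K / L ^ (A + C₀ + 1)) ^ 2 * P * (P * L ^ C₀) :=
    mul_le_mul_of_nonneg_left hS (by positivity)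
  have a2 : (K / L ^ (A + C₀ + 1)) ^ 2 * P * (P * L ^ C₀) =
      (K * P) ^ 2 / L ^ A * (1 / L ^ (A + C₀ + 2)) := by
    field_simp
    ring
  have a3 : L ≤ L ^ (A + C₀ + 2) := le_self_pow₀ hL (by omega)
  have a4 : C * (1 / L ^ (A + C₀ + 2)) ≤ 1 / 2 := by
    rw [mul_one_div, div_le_iff₀ (by positivity)]
    linarith
  have a5 : (K * P) ^ 2 * E = (K * P) ^ 2 / L ^ A * (L ^ A * E) := by
    field_simp
  have a6 : 0 ≤ (K * P) ^ 2 / L ^ A := by positivity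
  rw [a5]
  generalize (K * P) ^ 2 / L ^ A = Q at *
  have b1 := mul_le_mul_of_nonneg_left (a1.trans a2.le) hC.le
  have b2 := mul_le_mul_of_nonneg_left a4 a6
  have b3 := mul_le_mul_of_nonneg_left hE a6
  nlinarith

theorem v_stmt (hD : DualStmt) (hG : DU.GeoStmt) : VStmt := by
  intro r Λ A C₀ η hr hΛ hη
  have hr2 : (2 : ℝ) ≤ r := by exact_mod_cast hr
  have hΛ1 : (1 : ℝ) ≤ Λ := by exact_mod_cast hΛ
  obtain ⟨μ, g, hμ, hg, hG⟩ := hG r (η / 4) hr (by positivity)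
  obtain ⟨ν, C, hν, hC, hD⟩ := hD r Λ μ hr hΛ hμ
  obtain ⟨z, hz, hrz⟩ : ∃ z : ℝ, 0 < z ∧ r * z = η / 8 :=
    ⟨η / (8 * r), by positivity, by field_simp⟩
  have hz2 : z ≤ η / 16 := by nlinarith
  obtain ⟨γ, hγ, γ1, γ2⟩ : ∃ γ : ℝ, 0 < γ ∧ γ ≤ g / 2 ∧ γ ≤ η / 4 :=
    ⟨min (g / 2) (η / 4), by positivity, min_le_left _ _, min_le_right _ _⟩
  obtain ⟨δ, hδ, δ1, δ2⟩ : ∃ δ : ℝ, 0 < δ ∧ δ ≤ g / 5 ∧ δ ≤ 1 / 100 :=
    ⟨min (g / 5) (1 / 100), by positivity, min_le_left _ _, min_le_right _ _⟩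
  have ty : Tendsto (fun x : ℝ => x ^ (6 / 5 : ℝ)) atTop atTop := tendsto_rpow_atTop (by norm_num)
  refine ⟨ν / 4, γ, by positivity, hγ, ?_⟩
  filter_upwards [eventually_gt_atTop 1, ty.eventually hG, ty.eventually hD,
    E.ev_const_le (22 * Λ) hδ, E.ev_log_le (6 / 5) 1 hδ, E.ev_log_le 1 1 hz,
    E.ev_le_log 1, E.ev_le_log (2 * C),
    E.ev_log_le (2 * C) A (show 0 < ν / 2 by positivity)] with x hx hG hD c1 c2 c3 c4 c5 c6
  intro τ T₁ a₂ a₁ K P D b c hτ hV hK1 hK2 hP1 hP2 hT1 hT2 hPr hb hc hS hF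
  have hx0 : 0 < x := by linarith
  have dis := disp_VV hr hτ hz hrz hV
  obtain ⟨v1, v2, v3, v4, v5, v6⟩ := hV
  have w0 : (0 : ℝ) ≤ max 0 (τ - a₁) := le_max_left _ _
  have w1 : τ - a₁ ≤ max 0 (τ - a₁) := le_max_right _ _
  generalize max 0 (τ - a₁) = w at *
  have up : ∀ {a b : ℝ}, a ≤ b → x ^ a ≤ x ^ b := fun h => rpow_le_rpow_of_exponent_le hx.le h
  have sc : ∀ a : ℝ, (x ^ (6 / 5 : ℝ)) ^ a = x ^ (6 / 5 * a) := fun a => (rpow_mul hx0.le _ _).symm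
  have ad : ∀ a b : ℝ, x ^ a * x ^ b = x ^ (a + b) := fun a b => (rpow_add hx0 _ _).symm
  have pos : ∀ a : ℝ, 0 < x ^ a := fun a => rpow_pos_of_pos hx0 a
  have hK0 : (0 : ℝ) < K := (pos _).trans_le hK1
  have hP0 : (0 : ℝ) < P := (pos _).trans_le hP1
  have kp1 : x ^ (a₂ + a₁ - 2 * γ) ≤ K * P := by
    refine le_trans (le_of_eq ?_) (mul_le_mul hK1 hP1 (pos _).le hK0.le)
    rw [ad]
    congr 1
    ring
  have kp2 : (K : ℝ) * P ≤ x ^ (a₂ + a₁ + 2 * γ) := by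
    refine (mul_le_mul hK2 hP2 hP0.le (pos _).le).trans (le_of_eq ?_)
    rw [ad]
    congr 1
    ring
  have q0 : (0 : ℝ) < 11 * Λ * (K * P) := by positivity
  have q1 : 22 * Λ * ((K : ℝ) * P) ≤ x ^ (δ + (a₂ + a₁ + 2 * γ)) := by
    rw [← ad]
    exact mul_le_mul c1 kp2 (by positivity) (pos _).le
  have q2 : 1 ≤ x ^ (6 / 5 : ℝ) / (11 * Λ * (K * P)) := by
    rw [one_le_div q0]
    refine le_trans (by linarith) (q1.trans (up (by linarith)))
  obtain ⟨N, n1, n2⟩ : ∃ N : ℕ, 11 * Λ * (K * P) * N ≤ x ^ (6 / 5 : ℝ) ∧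
      x ^ (6 / 5 : ℝ) ≤ 22 * Λ * (K * P) * N := by
    refine ⟨⌊x ^ (6 / 5 : ℝ) / (11 * Λ * (K * P))⌋₊, ?_, ?_⟩
    · have := Nat.floor_le (zero_le_one.trans q2)
      rwa [le_div_iff₀' q0] at this
    · have h1 := (Nat.lt_floor_add_one (x ^ (6 / 5 : ℝ) / (11 * Λ * (K * P)))).le
      have h2 : (1 : ℝ) ≤ ⌊x ^ (6 / 5 : ℝ) / (11 * Λ * (K * P))⌋₊ := by
        exact_mod_cast (Nat.one_le_floor_iff _).2 q2
      rw [div_le_iff₀' q0] at h1
      have h3 := mul_le_mul_of_nonneg_left h2 q0.le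
      linarith
  have hN0 : (0 : ℝ) ≤ N := Nat.cast_nonneg N
  have kpn : (K : ℝ) * P * N ≤ x ^ (6 / 5 : ℝ) := by
    refine le_trans ?_ n1
    have : (K : ℝ) * P ≤ 11 * Λ * (K * P) :=
      le_mul_of_one_le_left (by positivity) (by linarith)
    exact mul_le_mul_of_nonneg_right this hN0
  have n3 : x ^ (6 / 5 - (δ + (a₂ + a₁ + 2 * γ))) ≤ N := by
    rw [rpow_sub hx0, div_le_iff₀' (pos _)]
    exact n2.trans (mul_le_mul_of_nonneg_right q1 hN0)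
  have n4 : (N : ℝ) ≤ x ^ (6 / 5 - (a₂ + a₁ - 2 * γ)) := by
    rw [rpow_sub hx0, le_div_iff₀' (pos _)]
    exact (mul_le_mul_of_nonneg_right kp1 hN0).trans kpn
  have hΔ : (x ^ (6 / 5 : ℝ)) ^ (-(5 * (τ + z) / 6)) = x ^ (-(τ + z)) := by
    rw [sc]
    congr 1
    ring
  have geo := hG (5 * (τ + z) / 6) (5 * (τ + z) / 6) (5 * a₁ / 6) (5 * a₂ / 6)
    (1 - 5 * (a₁ + a₂) / 6) P K N (by linarith) le_rfl (by linarith) (by linarith) dis
    (by rw [sc]; exact (up (by linarith)).trans hP1)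
    (by rw [sc]; exact (up (by linarith)).trans hK1)
    (by rw [sc]; exact hK2.trans (up (by linarith)))
    (by rw [sc]; exact (up (by linarith)).trans n3)
    (by rw [sc]; exact n4.trans (up (by linarith)))
    (by have := pos (6 / 5); linarith)
  rw [hΔ] at geo
  have lg : Real.log (x ^ (6 / 5 : ℝ)) ≤ x ^ δ := by
    rw [log_rpow hx0]
    simpa using c2
  have inv : 1 / x ^ (-(τ + z)) = x ^ (τ + z) := by rw [rpow_neg hx0.le, one_div, inv_inv]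
  have key := hD (x ^ (-(τ + z))) (K / Real.log x ^ (A + C₀ + 1)) (x ^ (ν / 4))
    (x ^ (1 / 2000 : ℝ)) T₁ K P N D b c geo hPr n1 n2
    (lg.trans (le_trans (by rw [ad]; exact up (by linarith))
      (mul_le_mul_of_nonneg_right n3 (pos _).le)))
    (le_trans (by rw [ad]; exact one_le_rpow hx.le (by linarith))
      (mul_le_mul_of_nonneg_right kp1 (pos _).le))
    (by
      rw [sc]
      refine le_trans (mul_le_mul_of_nonneg_right (le_trans (by linarith) c1) (pos _).le) ?_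
      rw [ad]
      exact (up (by linarith)).trans hP1)
    hb hc (pos _).le (by rw [sc]; exact up (by norm_num)) hT1
    (by
      rw [inv, ← ad]
      exact hT2.trans (mul_le_mul_of_nonneg_left (by simpa using c3) (pos _).le))
    (fun t t1 t2 => hF t t1 (by
      refine t2.trans ?_
      rw [div_eq_mul_one_div, inv]
      refine (mul_le_mul_of_nonneg_right lg (pos _).le).trans ?_
      rw [ad]
      exact (up (by linarith)).trans (rpow_one x).le))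
  refine key.trans ?_
  have e : (x ^ (ν / 4)) ^ 2 * ((K : ℝ) * P) ^ 2 * (x ^ (6 / 5 : ℝ)) ^ (-ν) =
      ((K : ℝ) * P) ^ 2 * x ^ (ν / 2 + 6 / 5 * -ν) := by
    rw [sc, ← ad, sq (x ^ (ν / 4)), ad, show ν / 4 + ν / 4 = ν / 2 by ring]
    ring
  rw [e]
  refine fin_VV hC c4 c5 hP0.le hS ?_
  refine (mul_le_mul_of_nonneg_right c6 (pos _).le).trans ?_
  rw [ad]
  exact rpow_le_one_of_one_le_of_nonpos hx.le (by linarith)

end Pool.Agent.MP_c853c5_nt.DV
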