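import Pool.Agent.MP_c853c5_nt.DU.All
import Pool.Agent.MP_c853c5_nt.DV.Cov
import Pool.Agent.MP_c853c5_nt.DV.Dual
import Pool.Agent.MP_c853c5_nt.DV.E4d
import Pool.Agent.MP_c853c5_nt.DV.H
import Pool.Agent.MP_c853c5_nt.DV.L4
import Pool.Agent.MP_c853c5_nt.DV.Mv
import Pool.Agent.MP_c853c5_nt.DV.Plan
import Pool.Agent.MP_c853c5_nt.DV.Sup
import Pool.Agent.MP_c853c5_nt.DV.Tail
import Pool.Agent.MP_c853c5_nt.DV.V

/-!
The new mean square and the leaf of its system, without hypotheses.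
-/

set_option autoImplicit false

namespace Pool.Agent.MP_c853c5_nt.DV

theorem v_all : VStmt :=
  v_stmt (dual_stmt (h_stmt DU.mean_all mv_stmt) mv_stmt plan_stmt tail_stmt sup_stmt cov_stmt)
    DU.geo_stmt

theorem e4d_all : E4D :=
  e4d_of (DU.tri_stmt DU.mean_all DS.conv_stmt) DU.geo_stmt v_all DS.l2_stmt DS.grp_fix Z.pr_all

theorem okF : sysF.OK := sysF_ok DU.okE e4d_all

theorem l2F : Y.Leaf2G sysF := Y.leaf2G okF

end Pool.Agent.MP_c853c5_nt.DV
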