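import Pool.Agent.MP_c853c5_nt.DU.Defs
import Pool.Agent.MP_c853c5_nt.E.Tr

/-!
The mean square of a sum over primes times a shorter polynomial, by duality from dispersion.
-/

set_option autoImplicit false

open Finset Filter Real MeasureTheory

namespace Pool.Agent.MP_c853c5_nt.DV

open S (AF Slot prI Dl)
open DS (PrK Wid FF)
open DU (DispOK Geo)

/-- the size conditions for the mean square: `a₂` is the prime, `a₁` the other group -/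
def VOK (τ η : ℝ) (r : ℕ) (a₂ a₁ : ℝ) : Prop :=
  2 / 5 ≤ τ ∧ a₂ ≤ 1 / 10 ∧ a₁ ≤ 1 / 2 ∧ r * max 0 (τ - a₁) + η ≤ (r - 1) * a₂ ∧
    (2 * r - 2) * a₂ + η ≤ a₁ ∧ max 0 (τ - a₁) + 3 / 1000 + η ≤ a₂

open Classical in
/-- the slots in `A` form the first group, `i` is the prime, the others form the last group -/
def E4pt {ι : Type} [Fintype ι] (τ η : ℝ) (K : ℕ) (pr : ι → Prop) (a : ι → ℝ) : Prop :=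
  ∃ (A : Finset ι) (i : ι) (r q : ℕ), 2 ≤ r ∧ r ≤ K ∧ 2 ≤ q ∧ q ≤ K ∧ i ∉ A ∧ pr i ∧
    DispOK τ η r (∑ l ∈ A, a l) (a i) (∑ l ∈ (univ \ A).erase i, a l) ∧
    VOK τ η q (a i) (∑ l ∈ (univ \ A).erase i, a l)

def E4D : Prop := ∀ (ι : Type) [Fintype ι] (τ t η : ℝ) (K A : ℕ), 1 / 3 ≤ t → t < τ →
  τ ≤ 1 / 2 → 0 < η → ∃ γ : ℝ, 0 < γ ∧ ∀ᶠ x : ℝ in atTop,
    ∀ (pr : ι → Prop) (a : ι → ℝ) (N : ι → ℕ) (g : ι → AF), (∀ i, 0 ≤ a i ∧ a i ≤ 1) →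
      E4pt τ η K pr a → (∀ i, Slot (N i) (g i)) →
      (∀ i, x ^ (a i - γ) ≤ N i ∧ (N i : ℝ) ≤ x ^ (a i + γ)) →
      (∀ i, pr i → ∃ P Q : ℕ, g i = prI P Q) →
      (∏ i, (N i : ℝ)) ≤ 2 * x →
      |Dl t x (∏ i, g i)| ≤ x / Real.log x ^ A

/-- the mean value theorem -/
def MvStmt : Prop := ∃ C : ℝ, 0 < C ∧ ∀ (R : Finset ℕ) (c : ℕ → ℝ) (Y : ℕ) (T₀ T : ℝ), 0 ≤ T₀ →
  T₀ ≤ T → R ⊆ Icc 1 Y → ∫ t in T₀..T, ‖E.FP R c t‖ ^ 2 ≤ C * (T + Y) * ∑ n ∈ R, c n ^ 2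

/-- the smoothed sum over products -/
noncomputable def Dv (Δ Γ : ℝ) (D R : Finset ℕ) (b c : ℕ → ℝ) (v : ℝ) : ℝ :=
  ∑ u ∈ D ×ˢ R, b u.1 * c u.2 * E.dg v Δ Γ (Real.log ((u.1 : ℝ) * u.2))

/-- the lower bound from the Plancherel formula -/
def PlanStmt : Prop := ∀ (Δ Γ T₀ T₁ : ℝ) (D R : Finset ℕ) (b c : ℕ → ℝ), 0 < Δ → 0 < Γ →
  0 ∉ D → 0 ∉ R → 4 / Γ ≤ T₀ → T₀ ≤ T₁ → T₁ ≤ 1 / Δ →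
  ∫ t in T₀..T₁, ‖E.FP D b t‖ ^ 2 * ‖E.FP R c t‖ ^ 2 ≤ 8 * π * ∫ v, Dv Δ Γ D R b c v ^ 2

def TailStmt : Prop := ∀ (ι : Type) (s : Finset ι) (α z : ι → ℝ) (Δ Γ p q : ℝ), 0 < Δ → Δ ≤ Γ →
  p ≤ q → (∀ i ∈ s, p ≤ z i ∧ z i ≤ q) →
  ∫ v, (∑ i ∈ s, α i * E.dg v Δ Γ (z i)) ^ 2 ≤
    (∫ v in (p - 1)..(q + 1), (∑ i ∈ s, α i * E.dg v Δ Γ (z i)) ^ 2) +
      2 * (∑ i ∈ s, |α i|) ^ 2 / Δ * Real.exp (-(π / Γ ^ 2))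

def SupStmt : Prop := ∃ C : ℝ, 0 < C ∧ ∀ (Δ Γ β v : ℝ) (K P Λ : ℕ) (D : Finset ℕ) (b c : ℕ → ℝ),
  0 < Δ → Δ ≤ Γ → 1 ≤ K → 1 ≤ P → 1 ≤ Λ → PrK K D → (∀ n, |b n| ≤ 1) → (∀ n, |c n| ≤ β) →
  1 ≤ K * P * Δ →
  |Dv Δ Γ D (Icc P (Λ * P)) b c v| ≤ C * β * (Λ * (K * P)) * Real.log (2 * Λ * (K * P))

def CovStmt : Prop := ∀ (f : ℝ → ℝ) (x p q : ℝ) (N N' : ℕ), Continuous f → (∀ v, 0 ≤ f v) →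
  0 < x → p ≤ q → 1 ≤ N → N * Real.exp q ≤ x / 2 → 2 * x ≤ N' * Real.exp p →
  ∫ v in p..q, f v ≤
    2 * ∫ w in (Real.log (x / 2))..(Real.log (2 * x)), ∑ n ∈ Icc N N', f (w - Real.log n) / n

/-- the samples of the square -/
noncomputable def Hw (Δ Γ : ℝ) (D R R' : Finset ℕ) (b c : ℕ → ℝ) (w : ℝ) : ℝ :=
  ∑ n ∈ R', Dv Δ Γ D R b c (w - Real.log n) ^ 2 / n

/-- the bound that improves itself -/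
def HStmt : Prop := ∀ (r Λ : ℕ) (μ : ℝ), 2 ≤ r → 1 ≤ Λ → 0 < μ → ∃ ν C : ℝ, 0 < ν ∧ 0 < C ∧
  ∀ᶠ x : ℝ in atTop, ∀ (X Δ Γ σ S : ℝ) (K P N : ℕ) (D : Finset ℕ) (b c : ℕ → ℝ),
    Geo x μ r X Δ K N → Wid x Γ → PrK K D → 1 ≤ P → 11 * Λ * (K * P) * N ≤ x →
    x ≤ 22 * Λ * (K * P) * N → Real.log x ≤ N * Δ → (∀ n, |b n| ≤ 1) → 0 < S →
    (∀ v, |Dv Δ Γ D (Icc P (Λ * P)) b c v| ≤ S) →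
    (∀ t, x ^ (1 / 2000 : ℝ) ≤ t → t ≤ Real.log x / Δ → ‖E.FP D b t‖ ≤ σ) →
    Hw Δ Γ D (Icc P (Λ * P)) (Icc N (128 * Λ * N)) b c (Real.log X) ≤
      C * (σ ^ 2 * P * ∑ n ∈ Icc P (Λ * P), c n ^ 2 +
        S * K * √(P * ∑ n ∈ Icc P (Λ * P), c n ^ 2) * x ^ (-ν))

/-- the mean square, at the scale of the dual problem -/
def DualStmt : Prop := ∀ (r Λ : ℕ) (μ : ℝ), 2 ≤ r → 1 ≤ Λ → 0 < μ → ∃ ν C : ℝ, 0 < ν ∧ 0 < C ∧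
  ∀ᶠ x : ℝ in atTop, ∀ (Δ σ β T₀ T₁ : ℝ) (K P N : ℕ) (D : Finset ℕ) (b c : ℕ → ℝ),
    (∀ X : ℝ, x / 2 ≤ X → X ≤ 2 * x → Geo x μ r X Δ K N) → PrK K D →
    11 * Λ * (K * P) * N ≤ x → x ≤ 22 * Λ * (K * P) * N → Real.log x ≤ N * Δ →
    1 ≤ K * P * Δ → 8 * x ^ (1 / 1000 : ℝ) ≤ P → (∀ n, |b n| ≤ 1) → (∀ n, |c n| ≤ β) →
    0 ≤ T₀ → T₀ ≤ x ^ (1 / 2000 : ℝ) → T₀ ≤ T₁ → T₁ ≤ 1 / Δ →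
    (∀ t, T₀ ≤ t → t ≤ Real.log x / Δ → ‖E.FP D b t‖ ≤ σ) →
    ∫ t in T₀..T₁, ‖E.FP D b t‖ ^ 2 * ‖E.FP (Icc P (Λ * P)) c t‖ ^ 2 ≤
      C * (σ ^ 2 * P * ∑ n ∈ Icc P (Λ * P), c n ^ 2 + β ^ 2 * (K * P) ^ 2 * x ^ (-ν))

/-- the mean square from the exponents -/
def VStmt : Prop := ∀ (r Λ A C₀ : ℕ) (η : ℝ), 2 ≤ r → 1 ≤ Λ → 0 < η → ∃ ε γ : ℝ, 0 < ε ∧ 0 < γ ∧
  ∀ᶠ x : ℝ in atTop, ∀ (τ T₁ a₂ a₁ : ℝ) (K P : ℕ) (D : Finset ℕ) (b c : ℕ → ℝ), τ ≤ 1 / 2 →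
    VOK τ η r a₂ a₁ → x ^ (a₂ - γ) ≤ K → (K : ℝ) ≤ x ^ (a₂ + γ) → x ^ (a₁ - γ) ≤ P →
    (P : ℝ) ≤ x ^ (a₁ + γ) → x ^ (1 / 2000 : ℝ) ≤ T₁ → T₁ ≤ x ^ τ * Real.log x → PrK K D →
    (∀ n, |b n| ≤ 1) → (∀ n, |c n| ≤ x ^ ε) →
    ∑ n ∈ Icc P (Λ * P), c n ^ 2 ≤ P * Real.log x ^ C₀ →
    (∀ t, x ^ (1 / 2000 : ℝ) ≤ t → t ≤ x → ‖E.FP D b t‖ ≤ K / Real.log x ^ (A + C₀ + 1)) →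
    ∫ t in (x ^ (1 / 2000 : ℝ))..T₁, ‖E.FP D b t‖ ^ 2 * ‖E.FP (Icc P (Λ * P)) c t‖ ^ 2 ≤
      (K * P) ^ 2 / Real.log x ^ A

end Pool.Agent.MP_c853c5_nt.DV
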