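import Pool.Agent.MP_c853c5_nt.DV.L4
import Pool.Agent.MP_c853c5_nt.DU.L3

/-!
Tables with both kinds of entries.
-/

set_option autoImplicit false

namespace Pool.Agent.MP_c853c5_nt.X

open Pool.Agent.MP_c853c5_nt.S Pool.Agent.MP_c853c5_nt.REG Pool.Agent.MP_c853c5_nt.Y

def PP.Good34 (tn : ℕ) (x : PP) : Prop := x.Good3E tn ∨ x.Good4 tn

variable {t : ℝ} {tn : ℕ} {PL : BT PP}

lemma leaf34_pr {S : NS} {A : ℕ → Finset ℕ} {sg : Bool} (R : CutStmt2) (h1 : 1 / 3 ≤ t)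
    (h2 : t < (tn : ℝ) / SC) (h4 : 2 * tn ≤ SC) {x : PP} {G : ℕ} (hE : Leaf2G DU.sysE)
    (hF : Leaf2G DV.sysF) (hx : x.Good34 tn) (hI : Inv S A) (hG : g3 S G x.k = true) :
    H sg t S.k S.kind (fun a => ∀ y ∈ x.P, Pr S.k G y a) 0 := by
  have : (2 : ℝ) * tn ≤ SC := by exact_mod_cast h4
  have h3 : (tn : ℝ) / SC ≤ 1 / 2 := (div_le_iff₀ SC_pos).2 (by linarith)
  exact hx.elim (fun h => leaf3E_pr R h1 h2 h3 hE h hI hG) fun h => leaf4_pr R h1 h2 h3 hF h hI hG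

theorem l34R_ok {im : NS → Rw → ℕ → Bool} (hm : Imok im) (R : CutStmt2) (h1 : 1 / 3 ≤ t)
    (h2 : t < (tn : ℝ) / SC) (h4 : 2 * tn ≤ SC) (hE : Leaf2G DU.sysE) (hF : Leaf2G DV.sysF)
    (hx : PL.All (PP.Good34 tn)) : XTok t (l3R im PL) := fun _ ih _ hH sg S s => by
  simp only [l3R, force_eq]
  refine Val.grd fun g hl A hI => ?_
  exact cv_ok hm (hH sg) hI ((leaf34_pr R h1 h2 h4 hE hF (hx.find _) hI g).anti
    fun _ ha => ha.2) hl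

theorem gd34_ok (R : CutStmt2) (h1 : 1 / 3 ≤ t) (h2 : t < (tn : ℝ) / SC) (h4 : 2 * tn ≤ SC)
    (hE : Leaf2G DU.sysE) (hF : Leaf2G DV.sysF) (hx : PL.All (PP.Good34 tn)) :
    PL.All (PP.Gd t g3) := by
  refine hx.imp fun x hx sg S A G hI c => ⟨?_, leaf34_pr R h1 h2 h4 hE hF hx hI c⟩
  rw [g3, Nat.beq_eq] at c
  exact (cnt3_ok _ _ _ _ c.le).1

theorem t34P_ok (R : CutStmt2) (h1 : 1 / 3 ≤ t) (h2 : t < (tn : ℝ) / SC) (h4 : 2 * tn ≤ SC)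
    (hE : Leaf2G DU.sysE) (hF : Leaf2G DV.sysF) (hx : PL.All (PP.Good34 tn)) :
    Prok t (tabP g3 PL) :=
  tabP_ok fun sg S A i G hI c => ((gd34_ok R h1 h2 h4 hE hF hx).find i sg S A G hI c).2

end Pool.Agent.MP_c853c5_nt.X
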