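import Pool.Agent.MP_c853c5_nt.DV.L4

/-!
Uniform leaves above the level of the crossing lemma: either few sieving primes are large, or the
smallest of several large ones lies in a window of the new mean square.
-/

set_option autoImplicit false

open Finset

namespace Pool.Agent.MP_c853c5_nt.DV

open Pool.Agent.MP_c853c5_nt.S Pool.Agent.MP_c853c5_nt.R Pool.Agent.MP_c853c5_nt.REG
open Pool.Agent.MP_c853c5_nt.Y

def ZG : Sys := ⟨E1pt, E12pt, fun τ η K pr a =>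
  DU.E3pt τ η K pr a ∨ E4pt τ (1 / 10000) 64 pr a⟩

/-- the dispersion bound and the mean square with fixed margins -/
def sysG : Sys := sysW.or2 ZG

theorem sysG_ok (h : sysW.OK) (h3 : DU.E3D) (h4 : E4D) : sysG.OK := by
  have a : E2G ⟨E1pt, E12pt, fun τ _ _ pr a => E4pt τ (1 / 10000) 64 pr a⟩ :=
    fun ι _ τ t _ _ A a b c _ => h4 ι τ t _ 64 A a b c (by norm_num)
  have b := ((h.or2 (Z := ⟨E1pt, E12pt, DU.E3pt⟩) h3).or2 a).e2
  refine h.or2 fun ι _ τ t η K A h1 h2 h3 h4 => ?_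
  obtain ⟨γ, g, k⟩ := b ι τ t η K A h1 h2 h3 h4
  exact ⟨γ, g, k.mono fun x k pr a N f a1 a2 =>
    k pr a N f a1 (a2.elim (fun e => Or.inl (Or.inr e)) Or.inr)⟩

theorem crs_G {τ ν δ : ℝ} (h : Crs DU.sysE τ ν δ) : Crs sysG τ ν δ := fun κ N hκ hN => by
  obtain ⟨η, h1, K, h2, h3⟩ := h κ N hκ hN
  exact ⟨η, h1, K, h2, fun ι _ x pr A D c a1 a2 a3 a4 a5 a6 a7 a8 a9 =>
    (h3 ι x pr A D c a1 a2 a3 a4 a5 a6 a7 a8 a9).imp_right Or.inl⟩

/-- a prime `x i` of size in `(ν, z]` and a group `M` of the right size -/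
def Win (τ ν z lo E : ℝ) (j r : ℕ) : Prop := ∀ (ι : Type) [Fintype ι] (x : ι → ℝ) (pr : ι → Prop)
  (M : Finset ι) (i : ι), i ∉ M → pr i → ν < x i → x i ≤ z → ∑ k, x k = 1 →
    lo + j * x i ≤ ∑ k ∈ M, x k → r * ∑ k ∈ M, x k + x i ≤ E → E4pt τ (1 / 10000) 64 pr x

/-- the conditions on one piece `[q0, q1]` -/
structure Pc (τ q0 q1 k L : ℝ) (r n : ℕ) : Prop where
  t1 : 2 / 5 ≤ τ
  t2 : τ ≤ 1 / 2
  r1 : 1 ≤ r
  r2 : r ≤ 63
  n1 : 1 ≤ n
  n2 : n ≤ 63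
  q : q1 ≤ 1 / 10
  k0 : 0 ≤ k
  a1 : (2 * n + 1) * k + 2 * q1 + 3 * τ / 2 + 1 / 10000 ≤ 1
  a2 : k + 1 / 10000 ≤ n * (1 - 2 * τ)
  a3 : 2 * n * q1 + 1 / 10000 + k ≤ τ
  a4 : k + 26 / 10000 ≤ q0
  a5 : (n + 1) * k + 1 / 10000 ≤ n * q0
  a6 : 2 * k + 1 ≤ 2 * q0 + 2 * τ
  a7 : (r + 1) * (2 * r * q1 + 1 / 10000) + r * q1 ≤ (r + 1) * τ
  a8 : (r + 1) * (31 / 10000) ≤ q0
  a9 : τ ≤ L + k ∨ q1 + 2 * τ ≤ 1 + 2 * k ∧ (r + 1) * τ + 1 / 10000 ≤ (r + 1) * L + r * q0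

lemma Pc.both {τ q0 q1 k L a0 a1 q : ℝ} {r n : ℕ} (h : Pc τ q0 q1 k L r n) (h0 : q0 ≤ q)
    (h1 : q ≤ q1) (hs : a0 + q + a1 = 1) (g0 : τ ≤ a0 + k) (g1 : a1 ≤ 1 / 2)
    (g2 : (r + 1) * (τ - a1) + 1 / 10000 ≤ r * q) :
    DU.DispOK τ (1 / 10000) (n + 1) a0 q a1 ∧ VOK τ (1 / 10000) (r + 1) q a1 := by
  obtain ⟨t1, t2, r1, -, n1, -, q2, k0, a1', a2, a3, a4, a5, -, a7, a8, -⟩ := h
  have r' : (1 : ℝ) ≤ r := by exact_mod_cast r1
  have n' : (1 : ℝ) ≤ n := by exact_mod_cast n1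
  have w : τ - a0 ≤ k := by linarith
  have e1 := mul_le_mul_of_nonneg_left w (by linarith : (0 : ℝ) ≤ 2 * n + 1)
  have e2 := mul_le_mul_of_nonneg_left w (by linarith : (0 : ℝ) ≤ n + 1)
  have e3 := mul_le_mul_of_nonneg_left h1 (by linarith : (0 : ℝ) ≤ n)
  have e4 := mul_le_mul_of_nonneg_left h0 (by linarith : (0 : ℝ) ≤ n)
  have e5 := mul_le_mul_of_nonneg_left h1 (by linarith : (0 : ℝ) ≤ r)
  have e6 := mul_le_mul_of_nonneg_left e5 (by linarith : (0 : ℝ) ≤ r + 1)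
  have r0 : (0 : ℝ) < r + 1 := by linarith
  have e7 := min_le_left (τ / 2) (τ / 6 + (a1 - q) / 2)
  have g9 : τ - a1 + 3 / 1000 + 1 / 10000 ≤ q := le_of_mul_le_mul_left (by linarith) r0
  have g8 : 2 * r * q + 1 / 10000 ≤ a1 := le_of_mul_le_mul_left (by linarith) r0
  obtain rfl : a1 = 1 - a0 - q := by linarith
  exact ⟨disp_of n1 t1 t2 rfl hs (Or.inl (by linarith)) (by linarith) (by linarith) (by linarith)
    (by linarith) (by linarith) g1 g9 (by linarith),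
    vok_of r1 t1 rfl (by linarith) g1 g2 g8 g9 (by linarith)⟩

open Classical in
lemma Pc.win {τ q0 q1 k L : ℝ} {r n : ℕ} (h : Pc τ q0 q1 k L r n) {ι : Type} [Fintype ι]
    {x : ι → ℝ} {pr : ι → Prop} {M : Finset ι} {i : ι} (hi : i ∉ M) (hp : pr i) (h0 : q0 ≤ x i)
    (h1 : x i ≤ q1) (hs : ∑ k, x k = 1) (g0 : L ≤ ∑ k ∈ M, x k)
    (g1 : (r + 1) * ∑ k ∈ M, x k + x i + 1 / 10000 ≤ (r + 1) * (1 - τ)) :
    E4pt τ (1 / 10000) 64 pr x := by
  have sp : ∀ B : Finset ι, i ∉ B →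
      ∑ l ∈ (univ \ B).erase i, x l = 1 - ∑ l ∈ B, x l - x i := fun B hB => by
    have b1 := sum_erase_add (univ \ B) x (mem_sdiff.2 ⟨mem_univ _, hB⟩)
    have b2 := sum_sdiff (subset_univ B) (f := x)
    linarith
  have fin : ∀ B : Finset ι, i ∉ B → τ ≤ ∑ l ∈ B, x l + k → 1 - ∑ l ∈ B, x l - x i ≤ 1 / 2 →
      (r + 1) * (τ - (1 - ∑ l ∈ B, x l - x i)) + 1 / 10000 ≤ r * x i →
      E4pt τ (1 / 10000) 64 pr x := fun B hB b1 b2 b3 => by
    have := h.both h0 h1 (by ring) b1 b2 b3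
    rw [← sp B hB] at this
    exact ⟨B, i, n + 1, r + 1, by linarith [h.n1], by linarith [h.n2], by linarith [h.r1],
      by linarith [h.r2], hB, hp, this.1, this.2⟩
  rcases le_or_gt τ (∑ l ∈ M, x l + k) with c | c
  · exact fin M hi c (by linarith [h.a6]) (by linarith)
  · obtain ⟨b1, b2⟩ := h.a9.resolve_left (by linarith)
    have r0 : (0 : ℝ) ≤ r := Nat.cast_nonneg _
    have e1 := mul_le_mul_of_nonneg_left h0 r0
    have e2 := mul_le_mul_of_nonneg_left g0 (by linarith : (0 : ℝ) ≤ r + 1)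
    refine fin _ (notMem_erase i (univ \ M)) ?_ ?_ ?_ <;> rw [sp M hi] <;>
      linarith [h.k0, h.t2]

open Classical in
/-- the crossing of a threshold when the primes may exceed `ν` -/
lemma cross_T {τ ν δ z zm lo E κ N : ℝ} {j r : ℕ} (hC : Crs sysG τ ν δ)
    (hW : Win τ ν zm lo E j r) (hz : z ≤ zm) (hν : 0 ≤ ν) (hκ : 0 < κ) (hN : 0 < N) :
    ∃ η : ℝ, 0 < η ∧ ∃ K : ℕ, 2 ≤ K ∧ ∀ (ι : Type) [Fintype ι] (x : ι → ℝ) (pr A D U : ι → Prop)
      (c m σ : ℝ), τ + δ ≤ c → c + τ + δ ≤ 1 → (∀ k, D k → ¬ A k ∧ ¬ U k) →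
      (∀ k, D k → pr k ∧ κ ≤ x k ∧ x k ≤ z) → (∀ k, 0 ≤ x k) → ∑ k, x k = 1 →
      ∑ k, (if A k then x k else 0) < c →
      ∑ k, (if A k then x k else 0) + ∑ k, (if D k then x k else 0) + m = 1 →
      ∑ k, (if U k then x k else 0) = σ → lo ≤ σ → m ≤ τ + δ →
      (ν < z → m + j * z ≤ τ + δ ∧ r * σ + (r * j + 1) * z ≤ E) →
      (Fintype.card ι : ℝ) ≤ N → sysG.q2 τ η K pr x := by
  obtain ⟨η, hη, K, hK, hC⟩ := hC κ N hκ hN
  refine ⟨η, hη, K, hK, fun ι _ x pr A D U c m σ c1 c2 hA hD h0 h1 h2 h3 h4 h5 h6 h7 h8 => ?_⟩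
  set B := univ.filter fun k => D k ∧ ν < x k with hB
  have bz : ∀ k ∈ B, D k ∧ ν < x k ∧ x k ≤ z := fun k hk =>
    have := (mem_filter.1 hk).2
    ⟨this.1, this.2, (hD k this.1).2.2⟩
  rcases le_or_gt B.card j with e | e
  · refine hC ι x pr A (fun k => D k ∧ x k ≤ ν) c c1 c2 (fun k hk => (hA k hk.1).1)
      (fun k hk => ⟨(hD k hk.1).1, (hD k hk.1).2.1, hk.2⟩) h0 h1 h2 ?_ h8
    have e1 : ∑ k, (if D k then x k else 0) =
        ∑ k, (@ite ℝ (D k ∧ x k ≤ ν) (propDecidable _) (x k) 0) + ∑ k ∈ B, x k := by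
      rw [hB, sum_filter, ← sum_add_distrib]
      refine sum_congr rfl fun k _ => ?_
      by_cases a : D k
      · rcases le_or_gt (x k) ν with b | b
        · simp [a, b, b.not_gt]
        · simp [a, b, b.not_ge]
      · simp [a]
    have e2 : m + ∑ k ∈ B, x k ≤ τ + δ := by
      rcases B.eq_empty_or_nonempty with a | ⟨k, a⟩
      · rw [a, sum_empty]
        linarith
      · have z1 := (bz k a).2.1.trans_le (bz k a).2.2
        have z2 := sum_le_card_nsmul B x z fun k hk => (bz k hk).2.2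
        have z3 : (B.card : ℝ) * z ≤ j * z :=
          mul_le_mul_of_nonneg_right (by exact_mod_cast e) (by linarith)
        rw [nsmul_eq_mul] at z2
        linarith [(h7 z1).1]
    linarith
  · obtain ⟨T, t1, t2⟩ := exists_subset_card_eq (show j + 1 ≤ B.card from e)
    obtain ⟨i, i1, i2⟩ := exists_min_image T x (card_pos.1 (by omega))
    obtain ⟨b1, b2, b3⟩ := bz i (t1 i1)
    have t3 : (T.erase i).card = j := by rw [card_erase_of_mem i1, t2]; rfl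
    have s1 := card_nsmul_le_sum (T.erase i) x (x i) fun k hk => i2 k (mem_of_mem_erase hk)
    have s2 := sum_le_card_nsmul (T.erase i) x z fun k hk => (bz k (t1 (mem_of_mem_erase hk))).2.2
    rw [t3, nsmul_eq_mul] at s1 s2
    have s3 : ∑ k ∈ univ.filter U ∪ T.erase i, x k = σ + ∑ k ∈ T.erase i, x k := by
      rw [sum_union, sum_filter, h4]
      exact disjoint_left.2 fun k a b =>
        (hA k (bz k (t1 (mem_of_mem_erase b))).1).2 (mem_filter.1 a).2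
    have s4 := mul_le_mul_of_nonneg_left s2 (Nat.cast_nonneg r : (0 : ℝ) ≤ r)
    refine Or.inr (Or.inr (hW ι x pr (univ.filter U ∪ T.erase i) i (fun a => ?_) (hD i b1).1 b2
      (b3.trans hz) h1 (by rw [s3]; linarith) (by rw [s3]; linarith [(h7 (b2.trans_le b3)).2])))
    rcases mem_union.1 a with a | a
    exacts [(hA i b1).2 (mem_filter.1 a).2, notMem_erase _ _ a]

/-- the conditions on the sums `m` (outside the moments) and `σ` (in the window) -/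
def TP (τ ν δ z lo E m σ : ℝ) (j r : ℕ) : Prop :=
  lo ≤ σ ∧ m ≤ τ + δ ∧ (ν < z → m + j * z ≤ τ + δ ∧ r * σ + (r * j + 1) * z ≤ E)

lemma sum_U {r : ℕ} {u : Fin r → ℕ} (hu : ∀ i, u i ≤ 1) (a : Fin r → ℝ) :
    ∑ i, (if u i = 1 then a i else 0) = ∑ i, (u i : ℝ) * a i :=
  sum_congr rfl fun i _ => by
    have := hu i
    split_ifs with e
    · simp [e]
    · simp [show u i = 0 by omega]

/-- one sieved factor -/
theorem ut_one {n j r : ℕ} {τ ν s δ z zm lo E : ℝ} {B : Fin n → Blk} {k1 k2 k3 u : Fin n → ℕ}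
    (hτ : 1 / 3 ≤ τ) (hs : 0 < s) (hδ : 0 ≤ δ) (h2 : 2 * τ + 2 * δ ≤ 1) (hν : 0 ≤ ν)
    (hC : Crs sysG τ ν δ) (hW : Win τ ν zm lo E j r) (hz : z ≤ zm)
    (hk : ∀ i, k1 i + k2 i + 2 * k3 i = 2) (hu : ∀ i, u i ≤ 1)
    (hB : ∀ a, InBox B a → (∃ W : ℝ,
      max τ (τ / 2 + 2 * ∑ i, (k1 i : ℝ) * a i) + max τ (∑ i, (k2 i : ℝ) * a i) ≤ 2 * W ∧
      W + s + τ + δ ≤ 1) ∧
      TP τ ν δ z lo E (∑ i, (k3 i : ℝ) * a i) (∑ i, (u i : ℝ) * a i) j r) :
    DustOKG sysG τ B z := by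
  classical
  refine ⟨s / 2, by positivity, fun κ hκ => ?_⟩
  obtain ⟨η, hη, K, hK, hC⟩ := cross_T (N := n + 1 / κ + 1) hC hW hz hν hκ (by positivity)
  refine ⟨η, hη, K, fun l a q b ha hq hb h1 => ?_⟩
  obtain ⟨⟨W, w0, w2⟩, p1, p2, p3⟩ := hB a ha
  obtain ⟨s1, s2⟩ := split_UW hk a
  have m1 := le_max_left (τ + δ) (W + s)
  have m2 := le_max_right (τ + δ) (W + s)
  have m3 := max_le (show τ + δ ≤ 1 - τ - δ by linarith) (show W + s ≤ 1 - τ - δ by linarith)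
  rcases le_or_gt (max (τ + δ) (W + s)) (b + ∑ i, if k3 i = 0 then a i else 0) with e | e
  · refine Or.inl ⟨?_, (evalW_uw (sm := fun o => o = none) (x1 := MP_c853c5_nt.E.av τ b) (x2 := 0)
      (c := Sum.elim a q) (k1 := Sum.elim k1 fun _ => 0) (k2 := Sum.elim k2 fun _ => 0)
      (k3 := Sum.elim k3 fun _ => 1) hK (by rintro (i | i); exacts [hk i, rfl]) rfl
      (Or.inr le_rfl) ?_).group (Option.map some) (fun o => ?_)
      fun _ hi => ⟨none, rfl, fun j => by rw [hi, Option.map_eq_none_iff]⟩⟩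
    · linarith [le_max_left τ (τ / 2 + 2 * ∑ i, (k1 i : ℝ) * a i),
        le_max_right τ (τ / 2 + 2 * ∑ i, (k1 i : ℝ) * a i),
        le_max_right τ (∑ i, (k2 i : ℝ) * a i)]
    · simp only [Fintype.sum_sum_type, Sum.elim_inl, Sum.elim_inr, Nat.cast_zero, zero_mul,
        sum_const_zero, add_zero, mul_zero, zero_add, Nat.cast_one, one_mul]
      linarith [max_le (show τ ≤ 1 - s - W by linarith)
        (show ∑ i, (k3 i : ℝ) * a i + ∑ i, q i ≤ 1 - s - W by linarith)]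
    · rw [fib_W]
      rcases o with _ | _ | o | o <;> simp [sum_filter]
  · have h3 : 0 ≤ ∑ i, a i := sum_nonneg fun i _ => (ha i).1
    have h4 := card_le_of hκ hq (by linarith)
    refine Or.inr (hC _ _ _
      (fun o => o.elim True (Sum.elim (fun i => k3 i = 0) fun _ => False))
      (fun o => o.elim False (Sum.elim (fun _ => False) fun _ => True))
      (fun o => o.elim False (Sum.elim (fun i => u i = 1) fun _ => False)) _ _ _ m1 (by linarith)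
      (by rintro (_ | i | i) <;> simp) ?_ ?_ ?_
      (by simpa [Fintype.sum_option, Fintype.sum_sum_type] using e)
      (by
        simp [Fintype.sum_option, Fintype.sum_sum_type]
        linarith)
      (by simpa [Fintype.sum_option, Fintype.sum_sum_type] using sum_U hu a) p1 p2 p3 ?_)
    · rintro (_ | i | i) h
      exacts [h.elim, h.elim, ⟨trivial, hq i⟩]
    · rintro (_ | i | i)
      exacts [hb, (ha i).1, hκ.le.trans (hq i).1]
    · rw [Fintype.sum_option, Fintype.sum_sum_type, add_comm]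
      exact h1
    · simp only [Fintype.card_option, Fintype.card_sum, Fintype.card_fin]
      push_cast
      linarith

/-- two sieved factors -/
theorem ut_two {n j r : ℕ} {τ ν s δ z z1 z2 zm lo E l h : ℝ} {B : Fin n → Blk}
    {k1 k2 k3 u : Fin n → ℕ}
    (hτ : 1 / 3 ≤ τ) (hs : 0 < s) (hδ : 0 ≤ δ) (h2 : 2 * τ + 2 * δ ≤ 1) (hν : 0 ≤ ν)
    (hC : Crs sysG τ ν δ) (hW : Win τ ν zm lo E j r) (hz : z ≤ zm) (hz1 : z1 ≤ z) (hz2 : z2 ≤ z)
    (hk : ∀ i, k1 i + k2 i + 2 * k3 i = 2) (hu : ∀ i, u i ≤ 1)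
    (hB : ∀ a, InBox B a → (∃ W : ℝ,
      max τ (τ / 2 + 2 * ∑ i, (k1 i : ℝ) * a i) + max τ (τ / 2 + 2 * ∑ i, (k2 i : ℝ) * a i) ≤
        2 * W ∧ W + s + τ + δ ≤ 1) ∧
      TP τ ν δ z lo E (∑ i, (k3 i : ℝ) * a i) (∑ i, (u i : ℝ) * a i) j r) :
    DustOK2G sysG τ B z1 z2 l h := by
  classical
  refine ⟨s / 2, by positivity, fun κ hκ => ?_⟩
  obtain ⟨η, hη, K, hK, hC⟩ :=
    cross_T (N := n + 1 / κ + 1 / κ + 2) hC hW hz hν hκ (by positivity)
  refine ⟨η, hη, K, fun j1 j2 a q1 q2 b1 b2 ha hq1 hq2 hb1 hb2 h1 _ _ => ?_⟩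
  obtain ⟨⟨W, w0, w2⟩, p1, p2, p3⟩ := hB a ha
  obtain ⟨s1, s2⟩ := split_UW hk a
  have m1 := le_max_left (τ + δ) (W + s)
  have m2 := le_max_right (τ + δ) (W + s)
  have m3 := max_le (show τ + δ ≤ 1 - τ - δ by linarith) (show W + s ≤ 1 - τ - δ by linarith)
  rcases le_or_gt (max (τ + δ) (W + s)) (b1 + (b2 + ∑ i, if k3 i = 0 then a i else 0))
    with e | e
  · have key : ∀ (sm : Option (Option (Fin n ⊕ Fin j1 ⊕ Fin j2)) → Prop) (x1 x2 : ℝ)
        (l1 l2 : Fin n → ℕ), (∀ i, l1 i + l2 i + 2 * k3 i = 2) → sm none →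
        (sm (some none) ∨ x2 ≤ 1 / 10) →
        max τ (τ / 2 + 2 * ∑ i, (l1 i : ℝ) * a i) + max τ (τ / 2 + 2 * ∑ i, (l2 i : ℝ) * a i) ≤
          2 * W → EvalW sm K τ (1 / 2 - s / 2)
            fun o => o.elim x1 fun o' => o'.elim x2 (Sum.elim a (Sum.elim q1 q2)) := by
      intro sm x1 x2 l1 l2 hl p1 p2 p3
      refine evalW_uw (k1 := Sum.elim l1 fun _ => 0) (k2 := Sum.elim l2 fun _ => 0)
        (k3 := Sum.elim k3 fun _ => 1) hK (by rintro (i | i); exacts [hl i, rfl]) p1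
        (p2.imp (fun h => ⟨h, le_rfl⟩) fun h => small_UW hτ h) ?_
      simp only [Fintype.sum_sum_type, Sum.elim_inl, Sum.elim_inr, Nat.cast_zero, zero_mul,
        sum_const_zero, add_zero, Nat.cast_one, one_mul]
      linarith [max_le (show τ ≤ 1 - s - W by linarith)
        (show ∑ i, (k3 i : ℝ) * a i + (∑ i, q1 i + ∑ i, q2 i) ≤ 1 - s - W by linarith)]
    rcases le_total (1 / 10) b1 with d1 | d1 <;> rcases le_total (1 / 10) b2 with d2 | d2
    · exact Or.inr (Or.inr (Or.inr ⟨d1, d2, key _ _ _ k1 k2 hk (Or.inl rfl)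
        (Or.inl (Or.inr rfl)) w0⟩))
    · exact Or.inr (Or.inl ⟨d1, key _ _ _ k1 k2 hk rfl (Or.inr d2) w0⟩)
    · exact Or.inr (Or.inr (Or.inl ⟨d2, key _ _ _ k2 k1 (fun i => by have := hk i; omega) rfl
        (Or.inr d1) (by linarith)⟩))
    · linarith [le_max_right τ (τ / 2 + 2 * ∑ i, (k1 i : ℝ) * a i),
        le_max_right τ (τ / 2 + 2 * ∑ i, (k2 i : ℝ) * a i)]
  · have h3 : 0 ≤ ∑ i, a i := sum_nonneg fun i _ => (ha i).1
    have h4 : 0 ≤ ∑ i, q1 i := sum_nonneg fun i _ => hκ.le.trans (hq1 i).1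
    have h5 : 0 ≤ ∑ i, q2 i := sum_nonneg fun i _ => hκ.le.trans (hq2 i).1
    have h6 := card_le_of hκ hq1 (by linarith)
    have h7 := card_le_of hκ hq2 (by linarith)
    refine Or.inl (hC _ _ _
      (fun o => o.elim True fun o' => o'.elim True (Sum.elim (fun i => k3 i = 0) fun _ => False))
      (fun o => o.elim False fun o' => o'.elim False (Sum.elim (fun _ => False) fun _ => True))
      (fun o => o.elim False fun o' => o'.elim False (Sum.elim (fun i => u i = 1) fun _ => False))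
      _ _ _ m1 (by linarith) (by rintro (_ | _ | i | i) <;> simp) ?_ ?_ ?_
      (by simpa [Fintype.sum_option, Fintype.sum_sum_type] using e)
      (by
        simp [Fintype.sum_option, Fintype.sum_sum_type]
        linarith)
      (by simpa [Fintype.sum_option, Fintype.sum_sum_type] using sum_U hu a) p1 p2 p3 ?_)
    · rintro (_ | _ | i | i | i) h
      exacts [h.elim, h.elim, h.elim, ⟨trivial, (hq1 i).imp_right fun e => e.trans hz1⟩,
        ⟨trivial, (hq2 i).imp_right fun e => e.trans hz2⟩]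
    · rintro (_ | _ | i | i | i)
      exacts [hb1, hb2, (ha i).1, hκ.le.trans (hq1 i).1, hκ.le.trans (hq2 i).1]
    · simp only [Fintype.sum_option, Fintype.sum_sum_type, Option.elim, Sum.elim_inl, Sum.elim_inr]
      linarith
    · simp only [Fintype.card_option, Fintype.card_sum, Fintype.card_fin]
      push_cast
      linarith

end Pool.Agent.MP_c853c5_nt.DV
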